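import Pool.Agent.Lib.MP_64b69f_gt.Main

set_option autoImplicit false

/-! Companion of the frozen statement S13288: the same space, for the functions with values 0 and 1
and index sets in any universe. -/

namespace Pool.Agent.Lib.MP_64b69f.Comp

open Set Topology Cardinal Pool.Agent.Lib.MP_64b69f

universe u

/-- the continuous functions with values 0 and 1 -/
abbrev Two (X : Type) [TopologicalSpace X] : Type :=
  {h : X → ℝ // Continuous h ∧ ∀ x, h x = 0 ∨ h x = 1}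

/-- some continuous injection of `Two X` has values of countable support -/
def Hyp (X : Type) [TopologicalSpace X] : Prop :=
  ∃ (ι : Type u) (f : Two X → (ι → ℝ)),
        Continuous f ∧ Function.Injective f ∧
        ∀ g : Two X, Set.Countable {i : ι | f g i ≠ 0}

theorem contSupport {X : Type} [TopologicalSpace X] (φ : Two X → ℝ)
    (hφ : Continuous φ) (h0 : Two X) :
    ∃ D : Set X, D.Countable ∧ ∀ h' : Two X,
      (∀ d ∈ D, h'.1 d = h0.1 d) → φ h' = φ h0 := by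
  have h1 : ∀ n : ℕ, ∃ D : Set X, D.Finite ∧ ∀ h' : Two X,
      (∀ d ∈ D, h'.1 d = h0.1 d) → |φ h' - φ h0| < 1 / ((n : ℝ) + 1) := by
    intro n
    have h2 : φ ⁻¹' Metric.ball (φ h0) (1 / ((n : ℝ) + 1)) ∈ 𝓝 h0 :=
      hφ.continuousAt (Metric.ball_mem_nhds _ (by positivity))
    rw [mem_nhds_induced] at h2
    obtain ⟨u, hu, hus⟩ := h2
    rw [nhds_pi, Filter.mem_pi] at hu
    obtain ⟨I, hI, t, ht, htu⟩ := hu
    refine ⟨I, hI, fun h' hh' => ?_⟩
    have h3 : h'.1 ∈ I.pi t := by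
      intro i hi
      rw [hh' i hi]
      exact mem_of_mem_nhds (ht i)
    have h4 : φ h' ∈ Metric.ball (φ h0) (1 / ((n : ℝ) + 1)) := hus (htu h3)
    rwa [Metric.mem_ball, Real.dist_eq] at h4
  choose D hD1 hD2 using h1
  refine ⟨⋃ n, D n, Set.countable_iUnion (fun n => (hD1 n).countable), ?_⟩
  intro h' hh'
  by_contra hne
  have h2 : 0 < |φ h' - φ h0| := abs_pos.mpr (sub_ne_zero.mpr hne)
  obtain ⟨n, hn⟩ := exists_nat_one_div_lt h2
  have h3 := hD2 n h' (fun d hd => hh' d (Set.mem_iUnion.mpr ⟨n, hd⟩))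
  exact absurd h3 (not_lt.mpr hn.le)

section
variable {K : Type} [LinearOrder K] [WellFoundedLT K] {r : K → K → Prop} {E : Set K}
  {h : IsTree r}

theorem ee_two (z : P r E h) (x : OnePoint (P r E h)) : (ee z).1 x = 0 ∨ (ee z).1 x = 1 := by
  by_cases hx : x ∈ (fun x : P r E h => (x : OnePoint (P r E h))) '' KK z
  · exact Or.inr (if_pos hx)
  · exact Or.inl (if_neg hx)

/-- the indicator of the basic clopen set, as a function with values 0 and 1 -/
noncomputable def e2 (z : P r E h) : Two (OnePoint (P r E h)) := ⟨(ee z).1, (ee z).2, ee_two z⟩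

theorem e2_infty (z : P r E h) : (e2 z).1 OnePoint.infty = 0 := ee_infty z

theorem e2_coe_of_mem {z x : P r E h} (hx : x ∈ KK z) :
    (e2 z).1 (x : OnePoint (P r E h)) = 1 := ee_coe_of_mem hx

theorem e2_coe_of_notMem {z x : P r E h} (hx : x ∉ KK z) :
    (e2 z).1 (x : OnePoint (P r E h)) = 0 := ee_coe_of_notMem hx

/-- Core lemma -/
theorem core2 (hKb : ∀ A : Set K, A.Countable → ∃ m, ∀ a ∈ A, a < m)
    (hX : Hyp.{u} (OnePoint (P r E h))) :
    ∃ g : K → K, ∀ α : P r E h,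
      (∀ u < val α, ∃ z : P r E h, r (val z) (val α) ∧ u < val z) → CB (val α) →
      (∀ z x : P r E h, r (val z) (val x) → x ∈ KK α → g (val z) < val x) → False := by
  classical
  obtain ⟨ι, f, hf, hinj, hsupp⟩ := hX
  -- supports
  let T : P r E h → Set ι := fun z => {t | f (e2 z) t ≠ 0}
  have hT : ∀ z, (T z).Countable := fun z => hsupp (e2 z)
  have hD : ∀ z : P r E h, ∃ D : Set (OnePoint (P r E h)), D.Countable ∧
      ∀ h' : Two (OnePoint (P r E h)),
      (∀ d ∈ D, h'.1 d = (e2 z).1 d) → ∀ t ∈ T z, f h' t = f (e2 z) t := by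
    intro z
    choose D hD1 hD2 using fun t : ι => contSupport (fun g => f g t)
      ((continuous_apply t).comp hf) (e2 z)
    refine ⟨⋃ t ∈ T z, D t, (hT z).biUnion (fun t _ => hD1 t), ?_⟩
    intro h' hh' t ht
    exact hD2 t h' (fun d hd => hh' d (Set.mem_biUnion ht hd))
  choose D hD1 hD2 using hD
  have hg0 : ∀ z : P r E h, ∃ m : K, ∀ d : P r E h, (d : OnePoint (P r E h)) ∈ D z →
      val d < m := by
    intro z
    obtain ⟨m, hm⟩ := hKb (val '' {d : P r E h | (d : OnePoint (P r E h)) ∈ D z}) (by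
      refine Set.Countable.image ?_ _
      exact (hD1 z).preimage_of_injOn OnePoint.coe_injective.injOn)
    exact ⟨m, fun d hd => hm _ ⟨d, hd, rfl⟩⟩
  choose g0 hg0 using hg0
  refine ⟨fun k => if hk : k ∈ PSet r E then g0 (mkP h k hk) else k, ?_⟩
  intro α hcof hCB hiii
  have hg : ∀ z : P r E h, (if hk : val z ∈ PSet r E then g0 (mkP h (val z) hk) else val z)
      = g0 z := fun z => dif_pos (val_mem z)
  have hiii' : ∀ z x : P r E h, r (val z) (val x) → x ∈ KK α → g0 z < val x := by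
    intro z x h1 h2
    have h3 := hiii z x h1 h2
    exact lt_of_eq_of_lt (hg z).symm h3
  -- claim 1
  have c1 : ∀ z z' : P r E h, r (val z) (val z') → z' ∈ KK α → ∀ d ∈ D z,
      (e2 z').1 d = (e2 z).1 d := by
    intro z z' hzz' hz'α d hd
    induction d using OnePoint.rec with
    | infty => rw [e2_infty, e2_infty]
    | coe d =>
      by_cases h1 : d ∈ KK z
      · rw [e2_coe_of_mem h1, e2_coe_of_mem (mem_KK_trans h1 (Or.inl hzz'))]
      · rw [e2_coe_of_notMem h1]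
        apply e2_coe_of_notMem
        intro h2
        -- d ⪯ z', so comparable with z
        have h3 : r (val z) (val d) := by
          rcases h2 with h2 | h2
          · rcases lt_trichotomy (val d) (val z) with h4 | h4 | h4
            · exact absurd (Or.inl (h.linear _ _ _ h2 hzz' h4)) h1
            · exact absurd (Or.inr (val_inj h4)) h1
            · exact h.linear _ _ _ hzz' h2 h4
          · rw [h2]; exact hzz'
        have h4 := hiii' z d h3 (mem_KK_trans h2 hz'α)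
        exact absurd (hg0 z d hd) (not_lt.mpr h4.le)
  have c2 : ∀ z z' : P r E h, r (val z) (val z') → z' ∈ KK α → ∀ t ∈ T z,
      f (e2 z') t = f (e2 z) t := fun z z' h1 h2 => hD2 z (e2 z') (c1 z z' h1 h2)
  have c3 : ∀ z z' : P r E h, r (val z) (val z') → z' ∈ KK α → T z ⊆ T z' := by
    intro z z' h1 h2 t ht
    change f (e2 z') t ≠ 0
    rw [c2 z z' h1 h2 t ht]
    exact ht
  -- claim 2
  have hU : (⋃ z ∈ {z : P r E h | r (val z) (val α)}, T z).Countable := by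
    refine (hT α).mono ?_
    intro t ht
    obtain ⟨z, hz, htz⟩ := Set.mem_iUnion₂.mp ht
    exact c3 z α hz (self_mem_KK α) htz
  have hch : ∀ t ∈ (⋃ z ∈ {z : P r E h | r (val z) (val α)}, T z),
      ∃ z : P r E h, r (val z) (val α) ∧ t ∈ T z := by
    intro t ht
    obtain ⟨z, hz, htz⟩ := Set.mem_iUnion₂.mp ht
    exact ⟨z, hz, htz⟩
  have : Nonempty (P r E h) := ⟨α⟩
  choose! w hw1 hw2 using hch
  obtain ⟨u, hu, hub⟩ := hCB ((fun t => val (w t)) '' (⋃ z ∈ {z : P r E h | r (val z) (val α)}, T z))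
    (hU.image _) (by
      rintro _ ⟨t, ht, rfl⟩
      exact h.lt _ _ (hw1 t ht))
  obtain ⟨zs, hzs, huzs⟩ := hcof u hu
  obtain ⟨z, hz, hzsz⟩ := hcof (val zs) (h.lt _ _ hzs)
  have hrz : r (val zs) (val z) := h.linear _ _ _ hzs hz hzsz
  have hTeq : T z ⊆ T zs := by
    intro t ht
    have htU : t ∈ (⋃ z ∈ {z : P r E h | r (val z) (val α)}, T z) :=
      Set.mem_biUnion (show z ∈ {z : P r E h | r (val z) (val α)} from hz) ht
    have h1 := hw1 t htU
    have h2 : val (w t) < val zs := (hub _ ⟨t, htU, rfl⟩).trans huzs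
    exact c3 (w t) zs (h.linear _ _ _ h1 hzs h2) (Or.inl hzs) (hw2 t htU)
  have hfe : f (e2 z) = f (e2 zs) := by
    funext t
    by_cases ht : t ∈ T zs
    · exact c2 zs z hrz (Or.inl hz) t ht
    · have h1 : f (e2 zs) t = 0 := not_not.mp ht
      have h2 : f (e2 z) t = 0 := not_not.mp (fun h' => ht (hTeq h'))
      rw [h1, h2]
  have hee := hinj hfe
  have h1 : (e2 z).1 (z : OnePoint (P r E h)) = 1 := e2_coe_of_mem (self_mem_KK z)
  have h2 : (e2 zs).1 (z : OnePoint (P r E h)) = 0 := by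
    apply e2_coe_of_notMem
    rintro (h3 | h3)
    · exact absurd (h.lt _ _ h3) (not_lt.mpr hzsz.le)
    · rw [h3] at hzsz
      exact lt_irrefl _ hzsz
  rw [hee, h2] at h1
  exact zero_ne_one h1

end

theorem main_aux2 {K Λ : Type} [LinearOrder K] [WellFoundedLT K] [LinearOrder Λ] [WellFoundedLT Λ]
    {κ : Cardinal.{0}} (hκ : ℵ₁ ≤ κ) (hΛ : Reg Λ ℵ₁) (hΛc : #Λ = κ) (hK : Reg K κ)
    (H : ∀ (r : K → K → Prop) (E : Set K) (h : IsTree r), Hyp.{u} (OnePoint (P r E h))) :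
    False := by
  classical
  have hω : ℵ₀ ≤ κ := Cardinal.aleph0_lt_aleph_one.le.trans hκ
  have hω1 : ℵ₀ ≤ (ℵ₁ : Cardinal.{0}) := Cardinal.aleph0_lt_aleph_one.le
  obtain ⟨r, hr, hr2, hr3⟩ := lemmaA (K := K) (Λ := Λ)
    (fun α => by rw [hΛc]; exact hK.small α) hΛ
  have hKb : ∀ A : Set K, A.Countable → ∃ m, ∀ a ∈ A, a < m := fun A hA =>
    hK.bdd A ((Cardinal.mk_le_aleph0_iff.mpr hA).trans hω)
  choose g hg using fun (j : Λ × Λ) (E : Set K) => core2 hKb (H (r j) E (hr j))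
  -- the decreasing sequence
  let E : Λ → Set K := (wellFounded_lt (α := Λ)).fix (fun ζ ih =>
    {ε | ∀ η (hη : η < ζ), ∀ j, ∀ x < ε, g j (ih η hη) x < ε})
  have hE : ∀ ζ, E ζ = {ε | ∀ η, η < ζ → ∀ j, ∀ x < ε, g j (E η) x < ε} := by
    intro ζ
    exact (wellFounded_lt (α := Λ)).fix_eq (fun ζ ih =>
      ({ε | ∀ η (hη : η < ζ), ∀ j, ∀ x < ε, g j (ih η hη) x < ε} : Set K)) ζ
  have hV : ∀ x : K, ∃ v, ∀ (η : Λ) (j : Λ × Λ), g j (E η) x < v := by
    intro x
    obtain ⟨v, hv⟩ := hK.bdd (Set.range (fun p : Λ × (Λ × Λ) => g p.2 (E p.1) x)) (by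
      refine Cardinal.mk_range_le.trans ?_
      rw [← Cardinal.mul_def, ← Cardinal.mul_def, hΛc, Cardinal.mul_eq_self hω,
        Cardinal.mul_eq_self hω])
    exact ⟨v, fun η j => hv _ ⟨(η, j), rfl⟩⟩
  choose V hV using hV
  have hEV : ∀ ζ, Clo V ⊆ E ζ := by
    intro ζ ε hε
    rw [hE]
    intro η _ j x hx
    exact (hV x η j).trans (hε x hx)
  have hanti : ∀ η ζ, η ≤ ζ → E ζ ⊆ E η := by
    intro η ζ hηζ ε hε
    rw [hE] at hε ⊢
    intro η' hη' j x hx
    exact hε η' (hη'.trans_le hηζ) j x hx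
  obtain ⟨m₀, -⟩ := hKb ∅ Set.countable_empty
  obtain ⟨α, -, hα1, hα2, hα3⟩ := exists_closure_point hK hκ V m₀
  obtain ⟨j, hj⟩ := hr3 α hα2 hα3
  -- stabilisation
  have hζ : ∀ p : K × K, ∃ ζ : Λ, (∃ ζ', E ζ' ∩ Set.Ioc p.1 p.2 = ∅) →
      E ζ ∩ Set.Ioc p.1 p.2 = ∅ := by
    intro p
    by_cases h1 : ∃ ζ', E ζ' ∩ Set.Ioc p.1 p.2 = ∅
    · obtain ⟨ζ', hζ'⟩ := h1
      exact ⟨ζ', fun _ => hζ'⟩
    · obtain ⟨d, -⟩ := hΛ.bdd ∅ (by simp)
      exact ⟨d, fun h2 => absurd h2 h1⟩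
  choose ζf hζf using hζ
  let B : Set K := insert α {x | r j x α}
  have hB : #B ≤ ℵ₁ := by
    refine Cardinal.mk_insert_le.trans ?_
    calc #{x | r j x α} + 1 ≤ ℵ₁ + ℵ₁ := add_le_add (hr2 j α) (Cardinal.one_le_aleph0.trans hω1)
      _ = ℵ₁ := Cardinal.add_eq_self hω1
  obtain ⟨ζs, hζs⟩ := hΛ.bdd (ζf '' (B ×ˢ B)) (by
    refine Cardinal.mk_image_le.trans ?_
    rw [Cardinal.mk_setProd]
    refine (mul_le_mul' hB hB).trans ?_
    rw [Cardinal.mul_eq_self hω1])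
  have hstab : ∀ y ∈ B, ∀ x ∈ B, (E ζs ∩ Set.Ioc y x).Nonempty → ∀ ζ,
      (E ζ ∩ Set.Ioc y x).Nonempty := by
    intro y hy x hx hne ζ
    by_contra hcon
    rw [Set.not_nonempty_iff_eq_empty] at hcon
    have h1 := hζf (y, x) ⟨ζ, hcon⟩
    have h2 := hζs _ ⟨(y, x), ⟨hy, hx⟩, rfl⟩
    obtain ⟨ε, hε1, hε2⟩ := hne
    have h3 : ε ∈ E (ζf (y, x)) ∩ Set.Ioc (y, x).1 (y, x).2 := ⟨hanti _ _ h2.le hε1, hε2⟩
    rw [h1] at h3
    exact h3
  obtain ⟨ζt, hζt⟩ := hΛ.bdd {ζs} (by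
    rw [Cardinal.mk_singleton]
    exact Cardinal.one_le_aleph0.trans hω1)
  have hζst : ζs < ζt := hζt ζs rfl
  -- α is a node
  have hαP : α ∈ PSet (r j) (E ζs) := by
    intro y hy
    obtain ⟨ε, h1, h2, h3⟩ := hα1 y ((hr j).lt _ _ hy)
    exact ⟨ε, hEV ζs h1, h2, h3.le⟩
  refine hg j (E ζs) (mkP (hr j) α hαP) ?_ ?_ ?_
  · intro u hu
    rw [val_mkP] at hu
    obtain ⟨ε, h1, h2, h3⟩ := hα1 u hu
    obtain ⟨x0, hx0, hx0ε⟩ := hj ε h3
    obtain ⟨x, ⟨hx, hεx⟩, hmin⟩ := WellFounded.has_min (wellFounded_lt (α := K))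
      {x | r j x α ∧ ε ≤ x} ⟨x0, hx0, hx0ε.le⟩
    have hxP : x ∈ PSet (r j) (E ζs) := by
      intro y hy
      refine ⟨ε, hEV ζs h1, ?_, hεx⟩
      by_contra h4
      exact hmin y ⟨(hr j).trans _ _ _ hy hx, not_lt.mp h4⟩ ((hr j).lt _ _ hy)
    exact ⟨mkP (hr j) x hxP, hx, h2.trans_le hεx⟩
  · exact hα2
  · intro z x hzx hxα
    have hxB : val x ∈ B := by
      rcases hxα with h1 | h1
      · exact Or.inr h1
      · left
        rw [h1]; rfl
    have hzB : val z ∈ B := by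
      right
      rcases hxα with h1 | h1
      · exact (hr j).trans _ _ _ hzx h1
      · rw [h1] at hzx
        exact hzx
    obtain ⟨ε, hε1, hε2, hε3⟩ := val_mem x (val z) hzx
    obtain ⟨ε', hε'1, hε'2, hε'3⟩ := hstab _ hzB _ hxB ⟨ε, hε1, hε2, hε3⟩ ζt
    rw [hE] at hε'1
    exact (hε'1 ζs hζst j (val z) hε'2).trans_le hε'3

end Pool.Agent.Lib.MP_64b69f.Comp
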