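import Pool.Agent.Lib.MP_64b69f_gt.Space

set_option autoImplicit false

namespace Pool.Agent.Lib.MP_64b69f

open Set Topology Cardinal

/-- the conclusion of the question for the space `X` -/
def HypFor (X : Type) [TopologicalSpace X] : Prop :=
  ∃ (ι : Type) (f : {h : X → ℝ // Continuous h} → (ι → ℝ)),
        Continuous f ∧ Function.Injective f ∧
        ∀ g : {h : X → ℝ // Continuous h}, Set.Countable {i : ι | f g i ≠ 0}

theorem cont_support {X : Type} [TopologicalSpace X] (φ : {h : X → ℝ // Continuous h} → ℝ)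
    (hφ : Continuous φ) (h0 : {h : X → ℝ // Continuous h}) :
    ∃ D : Set X, D.Countable ∧ ∀ h' : {h : X → ℝ // Continuous h},
      (∀ d ∈ D, h'.1 d = h0.1 d) → φ h' = φ h0 := by
  have h1 : ∀ n : ℕ, ∃ D : Set X, D.Finite ∧ ∀ h' : {h : X → ℝ // Continuous h},
      (∀ d ∈ D, h'.1 d = h0.1 d) → |φ h' - φ h0| < 1 / ((n : ℝ) + 1) := by
    intro n
    have h2 : φ ⁻¹' Metric.ball (φ h0) (1 / ((n : ℝ) + 1)) ∈ 𝓝 h0 :=
      hφ.continuousAt (Metric.ball_mem_nhds _ (by positivity))
    rw [mem_nhds_induced] at h2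
    obtain ⟨u, hu, hus⟩ := h2
    rw [nhds_pi, Filter.mem_pi] at hu
    obtain ⟨I, hI, t, ht, htu⟩ := hu
    refine ⟨I, hI, fun h' hh' => ?_⟩
    have h3 : h'.1 ∈ I.pi t := by
      intro i hi
      rw [hh' i hi]
      exact mem_of_mem_nhds (ht i)
    have h4 : φ h' ∈ Metric.ball (φ h0) (1 / ((n : ℝ) + 1)) := hus (htu h3)
    rwa [Metric.mem_ball, Real.dist_eq] at h4
  choose D hD1 hD2 using h1
  refine ⟨⋃ n, D n, Set.countable_iUnion (fun n => (hD1 n).countable), ?_⟩
  intro h' hh'
  by_contra hne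
  have h2 : 0 < |φ h' - φ h0| := abs_pos.mpr (sub_ne_zero.mpr hne)
  obtain ⟨n, hn⟩ := exists_nat_one_div_lt h2
  have h3 := hD2 n h' (fun d hd => hh' d (Set.mem_iUnion.mpr ⟨n, hd⟩))
  exact absurd h3 (not_lt.mpr hn.le)

section
variable {K : Type} [LinearOrder K] [WellFoundedLT K] {r : K → K → Prop} {E : Set K}
  {h : IsTree r}

theorem clopen_coe (z : P r E h) :
    IsClopen ((fun x : P r E h => (x : OnePoint (P r E h))) '' KK z) :=
  ⟨((isCompact_KK z).image OnePoint.continuous_coe).isClosed,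
    OnePoint.isOpenEmbedding_coe.isOpenMap _ (isOpen_KK z)⟩

open Classical in
/-- the indicator of the basic clopen set -/
noncomputable def ee (z : P r E h) : {g : OnePoint (P r E h) → ℝ // Continuous g} :=
  ⟨fun x => if x ∈ (fun x : P r E h => (x : OnePoint (P r E h))) '' KK z then 1 else 0, by
    rw [continuous_iff_continuousAt]
    intro x
    by_cases hx : x ∈ (fun x : P r E h => (x : OnePoint (P r E h))) '' KK z
    · refine (continuousAt_const (y := (1 : ℝ))).congr
        (Filter.eventuallyEq_of_mem ((clopen_coe z).isOpen.mem_nhds hx) ?_)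
      intro y hy
      exact (if_pos hy).symm
    · refine (continuousAt_const (y := (0 : ℝ))).congr
        (Filter.eventuallyEq_of_mem ((clopen_coe z).isClosed.isOpen_compl.mem_nhds hx) ?_)
      intro y hy
      exact (if_neg hy).symm⟩

theorem ee_infty (z : P r E h) : (ee z).1 OnePoint.infty = 0 := by
  refine if_neg ?_
  rintro ⟨x, _, hx⟩
  exact absurd hx (OnePoint.coe_ne_infty x)

theorem ee_coe_of_mem {z x : P r E h} (hx : x ∈ KK z) :
    (ee z).1 (x : OnePoint (P r E h)) = 1 := if_pos ⟨x, hx, rfl⟩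

theorem ee_coe_of_notMem {z x : P r E h} (hx : x ∉ KK z) :
    (ee z).1 (x : OnePoint (P r E h)) = 0 := by
  refine if_neg ?_
  rintro ⟨y, hy, hyx⟩
  have : y = x := OnePoint.coe_injective hyx
  rw [this] at hy
  exact hx hy

/-- Core lemma -/
theorem core (hKb : ∀ A : Set K, A.Countable → ∃ m, ∀ a ∈ A, a < m)
    (hX : HypFor (OnePoint (P r E h))) :
    ∃ g : K → K, ∀ α : P r E h,
      (∀ u < val α, ∃ z : P r E h, r (val z) (val α) ∧ u < val z) → CB (val α) →
      (∀ z x : P r E h, r (val z) (val x) → x ∈ KK α → g (val z) < val x) → False := by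
  classical
  obtain ⟨ι, f, hf, hinj, hsupp⟩ := hX
  -- supports
  let T : P r E h → Set ι := fun z => {t | f (ee z) t ≠ 0}
  have hT : ∀ z, (T z).Countable := fun z => hsupp (ee z)
  have hD : ∀ z : P r E h, ∃ D : Set (OnePoint (P r E h)), D.Countable ∧
      ∀ h' : {g : OnePoint (P r E h) → ℝ // Continuous g},
      (∀ d ∈ D, h'.1 d = (ee z).1 d) → ∀ t ∈ T z, f h' t = f (ee z) t := by
    intro z
    choose D hD1 hD2 using fun t : ι => cont_support (fun g => f g t)
      ((continuous_apply t).comp hf) (ee z)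
    refine ⟨⋃ t ∈ T z, D t, (hT z).biUnion (fun t _ => hD1 t), ?_⟩
    intro h' hh' t ht
    exact hD2 t h' (fun d hd => hh' d (Set.mem_biUnion ht hd))
  choose D hD1 hD2 using hD
  have hg0 : ∀ z : P r E h, ∃ m : K, ∀ d : P r E h, (d : OnePoint (P r E h)) ∈ D z →
      val d < m := by
    intro z
    obtain ⟨m, hm⟩ := hKb (val '' {d : P r E h | (d : OnePoint (P r E h)) ∈ D z}) (by
      refine Set.Countable.image ?_ _
      exact (hD1 z).preimage_of_injOn OnePoint.coe_injective.injOn)
    exact ⟨m, fun d hd => hm _ ⟨d, hd, rfl⟩⟩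
  choose g0 hg0 using hg0
  refine ⟨fun k => if hk : k ∈ PSet r E then g0 (mkP h k hk) else k, ?_⟩
  intro α hcof hCB hiii
  have hg : ∀ z : P r E h, (if hk : val z ∈ PSet r E then g0 (mkP h (val z) hk) else val z)
      = g0 z := fun z => dif_pos (val_mem z)
  have hiii' : ∀ z x : P r E h, r (val z) (val x) → x ∈ KK α → g0 z < val x := by
    intro z x h1 h2
    have h3 := hiii z x h1 h2
    exact lt_of_eq_of_lt (hg z).symm h3
  -- claim 1
  have c1 : ∀ z z' : P r E h, r (val z) (val z') → z' ∈ KK α → ∀ d ∈ D z,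
      (ee z').1 d = (ee z).1 d := by
    intro z z' hzz' hz'α d hd
    induction d using OnePoint.rec with
    | infty => rw [ee_infty, ee_infty]
    | coe d =>
      by_cases h1 : d ∈ KK z
      · rw [ee_coe_of_mem h1, ee_coe_of_mem (mem_KK_trans h1 (Or.inl hzz'))]
      · rw [ee_coe_of_notMem h1]
        apply ee_coe_of_notMem
        intro h2
        -- d ⪯ z', so comparable with z
        have h3 : r (val z) (val d) := by
          rcases h2 with h2 | h2
          · rcases lt_trichotomy (val d) (val z) with h4 | h4 | h4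
            · exact absurd (Or.inl (h.linear _ _ _ h2 hzz' h4)) h1
            · exact absurd (Or.inr (val_inj h4)) h1
            · exact h.linear _ _ _ hzz' h2 h4
          · rw [h2]; exact hzz'
        have h4 := hiii' z d h3 (mem_KK_trans h2 hz'α)
        exact absurd (hg0 z d hd) (not_lt.mpr h4.le)
  have c2 : ∀ z z' : P r E h, r (val z) (val z') → z' ∈ KK α → ∀ t ∈ T z,
      f (ee z') t = f (ee z) t := fun z z' h1 h2 => hD2 z (ee z') (c1 z z' h1 h2)
  have c3 : ∀ z z' : P r E h, r (val z) (val z') → z' ∈ KK α → T z ⊆ T z' := by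
    intro z z' h1 h2 t ht
    change f (ee z') t ≠ 0
    rw [c2 z z' h1 h2 t ht]
    exact ht
  -- claim 2
  have hU : (⋃ z ∈ {z : P r E h | r (val z) (val α)}, T z).Countable := by
    refine (hT α).mono ?_
    intro t ht
    obtain ⟨z, hz, htz⟩ := Set.mem_iUnion₂.mp ht
    exact c3 z α hz (self_mem_KK α) htz
  have hch : ∀ t ∈ (⋃ z ∈ {z : P r E h | r (val z) (val α)}, T z),
      ∃ z : P r E h, r (val z) (val α) ∧ t ∈ T z := by
    intro t ht
    obtain ⟨z, hz, htz⟩ := Set.mem_iUnion₂.mp ht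
    exact ⟨z, hz, htz⟩
  have : Nonempty (P r E h) := ⟨α⟩
  choose! w hw1 hw2 using hch
  obtain ⟨u, hu, hub⟩ := hCB ((fun t => val (w t)) '' (⋃ z ∈ {z : P r E h | r (val z) (val α)}, T z))
    (hU.image _) (by
      rintro _ ⟨t, ht, rfl⟩
      exact h.lt _ _ (hw1 t ht))
  obtain ⟨zs, hzs, huzs⟩ := hcof u hu
  obtain ⟨z, hz, hzsz⟩ := hcof (val zs) (h.lt _ _ hzs)
  have hrz : r (val zs) (val z) := h.linear _ _ _ hzs hz hzsz
  have hTeq : T z ⊆ T zs := by
    intro t ht
    have htU : t ∈ (⋃ z ∈ {z : P r E h | r (val z) (val α)}, T z) :=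
      Set.mem_biUnion (show z ∈ {z : P r E h | r (val z) (val α)} from hz) ht
    have h1 := hw1 t htU
    have h2 : val (w t) < val zs := (hub _ ⟨t, htU, rfl⟩).trans huzs
    exact c3 (w t) zs (h.linear _ _ _ h1 hzs h2) (Or.inl hzs) (hw2 t htU)
  have hfe : f (ee z) = f (ee zs) := by
    funext t
    by_cases ht : t ∈ T zs
    · exact c2 zs z hrz (Or.inl hz) t ht
    · have h1 : f (ee zs) t = 0 := not_not.mp ht
      have h2 : f (ee z) t = 0 := not_not.mp (fun h' => ht (hTeq h'))
      rw [h1, h2]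
  have hee := hinj hfe
  have h1 : (ee z).1 (z : OnePoint (P r E h)) = 1 := ee_coe_of_mem (self_mem_KK z)
  have h2 : (ee zs).1 (z : OnePoint (P r E h)) = 0 := by
    apply ee_coe_of_notMem
    rintro (h3 | h3)
    · exact absurd (h.lt _ _ h3) (not_lt.mpr hzsz.le)
    · rw [h3] at hzsz
      exact lt_irrefl _ hzsz
  rw [hee, h2] at h1
  exact zero_ne_one h1

end

end Pool.Agent.Lib.MP_64b69f
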