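import Pool.Agent.Lib.MP_64b69f_gt.Core

set_option autoImplicit false

namespace Pool.Agent.Lib.MP_64b69f

open Set Topology Cardinal

theorem main_aux {K Λ : Type} [LinearOrder K] [WellFoundedLT K] [LinearOrder Λ] [WellFoundedLT Λ]
    {κ : Cardinal.{0}} (hκ : ℵ₁ ≤ κ) (hΛ : Reg Λ ℵ₁) (hΛc : #Λ = κ) (hK : Reg K κ)
    (H : ∀ (r : K → K → Prop) (E : Set K) (h : IsTree r), HypFor (OnePoint (P r E h))) :
    False := by
  classical
  have hω : ℵ₀ ≤ κ := Cardinal.aleph0_lt_aleph_one.le.trans hκ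
  have hω1 : ℵ₀ ≤ (ℵ₁ : Cardinal.{0}) := Cardinal.aleph0_lt_aleph_one.le
  obtain ⟨r, hr, hr2, hr3⟩ := lemmaA (K := K) (Λ := Λ)
    (fun α => by rw [hΛc]; exact hK.small α) hΛ
  have hKb : ∀ A : Set K, A.Countable → ∃ m, ∀ a ∈ A, a < m := fun A hA =>
    hK.bdd A ((Cardinal.mk_le_aleph0_iff.mpr hA).trans hω)
  choose g hg using fun (j : Λ × Λ) (E : Set K) => core hKb (H (r j) E (hr j))
  -- the decreasing sequence
  let E : Λ → Set K := (wellFounded_lt (α := Λ)).fix (fun ζ ih =>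
    {ε | ∀ η (hη : η < ζ), ∀ j, ∀ x < ε, g j (ih η hη) x < ε})
  have hE : ∀ ζ, E ζ = {ε | ∀ η, η < ζ → ∀ j, ∀ x < ε, g j (E η) x < ε} := by
    intro ζ
    exact (wellFounded_lt (α := Λ)).fix_eq (fun ζ ih =>
      ({ε | ∀ η (hη : η < ζ), ∀ j, ∀ x < ε, g j (ih η hη) x < ε} : Set K)) ζ
  have hV : ∀ x : K, ∃ v, ∀ (η : Λ) (j : Λ × Λ), g j (E η) x < v := by
    intro x
    obtain ⟨v, hv⟩ := hK.bdd (Set.range (fun p : Λ × (Λ × Λ) => g p.2 (E p.1) x)) (by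
      refine Cardinal.mk_range_le.trans ?_
      rw [← Cardinal.mul_def, ← Cardinal.mul_def, hΛc, Cardinal.mul_eq_self hω,
        Cardinal.mul_eq_self hω])
    exact ⟨v, fun η j => hv _ ⟨(η, j), rfl⟩⟩
  choose V hV using hV
  have hEV : ∀ ζ, Clo V ⊆ E ζ := by
    intro ζ ε hε
    rw [hE]
    intro η _ j x hx
    exact (hV x η j).trans (hε x hx)
  have hanti : ∀ η ζ, η ≤ ζ → E ζ ⊆ E η := by
    intro η ζ hηζ ε hε
    rw [hE] at hε ⊢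
    intro η' hη' j x hx
    exact hε η' (hη'.trans_le hηζ) j x hx
  obtain ⟨m₀, -⟩ := hKb ∅ Set.countable_empty
  obtain ⟨α, -, hα1, hα2, hα3⟩ := exists_closure_point hK hκ V m₀
  obtain ⟨j, hj⟩ := hr3 α hα2 hα3
  -- stabilisation
  have hζ : ∀ p : K × K, ∃ ζ : Λ, (∃ ζ', E ζ' ∩ Set.Ioc p.1 p.2 = ∅) →
      E ζ ∩ Set.Ioc p.1 p.2 = ∅ := by
    intro p
    by_cases h1 : ∃ ζ', E ζ' ∩ Set.Ioc p.1 p.2 = ∅
    · obtain ⟨ζ', hζ'⟩ := h1
      exact ⟨ζ', fun _ => hζ'⟩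
    · obtain ⟨d, -⟩ := hΛ.bdd ∅ (by simp)
      exact ⟨d, fun h2 => absurd h2 h1⟩
  choose ζf hζf using hζ
  let B : Set K := insert α {x | r j x α}
  have hB : #B ≤ ℵ₁ := by
    refine Cardinal.mk_insert_le.trans ?_
    calc #{x | r j x α} + 1 ≤ ℵ₁ + ℵ₁ := add_le_add (hr2 j α) (Cardinal.one_le_aleph0.trans hω1)
      _ = ℵ₁ := Cardinal.add_eq_self hω1
  obtain ⟨ζs, hζs⟩ := hΛ.bdd (ζf '' (B ×ˢ B)) (by
    refine Cardinal.mk_image_le.trans ?_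
    rw [Cardinal.mk_setProd]
    refine (mul_le_mul' hB hB).trans ?_
    rw [Cardinal.mul_eq_self hω1])
  have hstab : ∀ y ∈ B, ∀ x ∈ B, (E ζs ∩ Set.Ioc y x).Nonempty → ∀ ζ,
      (E ζ ∩ Set.Ioc y x).Nonempty := by
    intro y hy x hx hne ζ
    by_contra hcon
    rw [Set.not_nonempty_iff_eq_empty] at hcon
    have h1 := hζf (y, x) ⟨ζ, hcon⟩
    have h2 := hζs _ ⟨(y, x), ⟨hy, hx⟩, rfl⟩
    obtain ⟨ε, hε1, hε2⟩ := hne
    have h3 : ε ∈ E (ζf (y, x)) ∩ Set.Ioc (y, x).1 (y, x).2 := ⟨hanti _ _ h2.le hε1, hε2⟩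
    rw [h1] at h3
    exact h3
  obtain ⟨ζt, hζt⟩ := hΛ.bdd {ζs} (by
    rw [Cardinal.mk_singleton]
    exact Cardinal.one_le_aleph0.trans hω1)
  have hζst : ζs < ζt := hζt ζs rfl
  -- α is a node
  have hαP : α ∈ PSet (r j) (E ζs) := by
    intro y hy
    obtain ⟨ε, h1, h2, h3⟩ := hα1 y ((hr j).lt _ _ hy)
    exact ⟨ε, hEV ζs h1, h2, h3.le⟩
  refine hg j (E ζs) (mkP (hr j) α hαP) ?_ ?_ ?_
  · intro u hu
    rw [val_mkP] at hu
    obtain ⟨ε, h1, h2, h3⟩ := hα1 u hu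
    obtain ⟨x0, hx0, hx0ε⟩ := hj ε h3
    obtain ⟨x, ⟨hx, hεx⟩, hmin⟩ := WellFounded.has_min (wellFounded_lt (α := K))
      {x | r j x α ∧ ε ≤ x} ⟨x0, hx0, hx0ε.le⟩
    have hxP : x ∈ PSet (r j) (E ζs) := by
      intro y hy
      refine ⟨ε, hEV ζs h1, ?_, hεx⟩
      by_contra h4
      exact hmin y ⟨(hr j).trans _ _ _ hy hx, not_lt.mp h4⟩ ((hr j).lt _ _ hy)
    exact ⟨mkP (hr j) x hxP, hx, h2.trans_le hεx⟩
  · exact hα2
  · intro z x hzx hxα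
    have hxB : val x ∈ B := by
      rcases hxα with h1 | h1
      · exact Or.inr h1
      · left
        rw [h1]; rfl
    have hzB : val z ∈ B := by
      right
      rcases hxα with h1 | h1
      · exact (hr j).trans _ _ _ hzx h1
      · rw [h1] at hzx
        exact hzx
    obtain ⟨ε, hε1, hε2, hε3⟩ := val_mem x (val z) hzx
    obtain ⟨ε', hε'1, hε'2, hε'3⟩ := hstab _ hzB _ hxB ⟨ε, hε1, hε2, hε3⟩ ζt
    rw [hE] at hε'1
    exact (hε'1 ζs hζst j (val z) hε'2).trans_le hε'3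

theorem monolithic {K : Type} [LinearOrder K] [WellFoundedLT K] (r : K → K → Prop) (E : Set K)
    (h : IsTree r) (A : Set (OnePoint (P r E h))) :
    ∃ N : Set (Set (OnePoint (P r E h))),
      (∀ n ∈ N, n ⊆ closure A) ∧
      (∀ x ∈ closure A, ∀ U : Set (OnePoint (P r E h)), IsOpen U → x ∈ U →
        ∃ n ∈ N, x ∈ n ∧ n ⊆ U) ∧
      Cardinal.mk N ≤ max (Cardinal.mk A) Cardinal.aleph0 := by
  refine ⟨(fun x => {x}) '' closure A, ?_, ?_, ?_⟩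
  · rintro _ ⟨x, hx, rfl⟩
    exact Set.singleton_subset_iff.mpr hx
  · intro x hx U _ hxU
    exact ⟨{x}, ⟨x, hx, rfl⟩, rfl, Set.singleton_subset_iff.mpr hxU⟩
  · exact Cardinal.mk_image_le.trans (mk_closure_onePoint_le A)

theorem main
    (H : ∀ (X : Type) [TopologicalSpace X] [CompactSpace X] [T2Space X],
      (∀ A : Set X, ∃ N : Set (Set X),
          (∀ n ∈ N, n ⊆ closure A) ∧
          (∀ x ∈ closure A, ∀ U : Set X, IsOpen U → x ∈ U → ∃ n ∈ N, x ∈ n ∧ n ⊆ U) ∧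
          Cardinal.mk N ≤ max (Cardinal.mk A) Cardinal.aleph0) →
      ∃ (ι : Type) (f : {h : X → ℝ // Continuous h} → (ι → ℝ)),
        Continuous f ∧ Function.Injective f ∧
        ∀ g : {h : X → ℝ // Continuous h}, Set.Countable {i : ι | f g i ≠ 0}) : False := by
  have hω : ℵ₀ ≤ (ℵ₁ : Cardinal.{0}) := Cardinal.aleph0_lt_aleph_one.le
  obtain ⟨Λ, _, _, hΛ, hΛc⟩ := exists_reg ℵ₁ hω
  have hκ : ℵ₁ ≤ Order.succ (ℵ₁ : Cardinal.{0}) := Order.le_succ _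
  obtain ⟨K, _, _, hK, -⟩ := exists_reg (Order.succ ℵ₁) (hω.trans hκ)
  exact main_aux hκ hΛ hΛc hK (fun r E h => H (OnePoint (P r E h)) (monolithic r E h))

end Pool.Agent.Lib.MP_64b69f
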