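import Pool.Agent.Lib.MP_64b69f_gt.Tree

set_option autoImplicit false

namespace Pool.Agent.Lib.MP_64b69f

open Set Topology Cardinal

section space
variable {K : Type} [LinearOrder K]

/-- Underlying set. -/
def PSet (r : K → K → Prop) (E : Set K) : Set K := {x | ∀ y, r y x → ∃ ε ∈ E, y < ε ∧ ε ≤ x}

/-- type synonym for the space -/
def P (r : K → K → Prop) (E : Set K) (_ : IsTree r) : Type := PSet r E

variable {r : K → K → Prop} {E : Set K} {h : IsTree r}

def val (x : P r E h) : K := Subtype.val (p := fun x => x ∈ PSet r E) x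

theorem val_mem (x : P r E h) : val x ∈ PSet r E := Subtype.property (p := fun x => x ∈ PSet r E) x

theorem val_inj {x y : P r E h} (hxy : val x = val y) : x = y :=
  Subtype.ext (p := fun x => x ∈ PSet r E) hxy

def mkP (h : IsTree r) (x : K) (hx : x ∈ PSet r E) : P r E h := ⟨x, hx⟩

@[simp] theorem val_mkP (x : K) (hx : x ∈ PSet r E) : val (mkP h x hx) = x := rfl

instance : TopologicalSpace (P r E h) where
  IsOpen U := ∀ δ ∈ U, (∃ x : P r E h, r (val x) (val δ)) →
    ∃ ρ : P r E h, r (val ρ) (val δ) ∧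
      ∀ x : P r E h, r (val ρ) (val x) → (r (val x) (val δ) ∨ x = δ) → x ∈ U
  isOpen_univ := by
    rintro δ - ⟨ρ, hρ⟩
    exact ⟨ρ, hρ, fun _ _ _ => Set.mem_univ _⟩
  isOpen_inter := by
    rintro U V hU hV δ ⟨hδU, hδV⟩ hex
    obtain ⟨ρ, hρ, hρU⟩ := hU δ hδU hex
    obtain ⟨σ, hσ, hσV⟩ := hV δ hδV hex
    rcases lt_trichotomy (val ρ) (val σ) with hlt | heq | hlt
    · refine ⟨σ, hσ, fun x hx hxδ => ⟨hρU x ?_ hxδ, hσV x hx hxδ⟩⟩
      exact h.trans _ _ _ (h.linear _ _ _ hρ hσ hlt) hx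
    · have : ρ = σ := val_inj heq
      subst this
      exact ⟨ρ, hρ, fun x hx hxδ => ⟨hρU x hx hxδ, hσV x hx hxδ⟩⟩
    · refine ⟨ρ, hρ, fun x hx hxδ => ⟨hρU x hx hxδ, hσV x ?_ hxδ⟩⟩
      exact h.trans _ _ _ (h.linear _ _ _ hσ hρ hlt) hx
  isOpen_sUnion := by
    rintro S hS δ ⟨U, hUS, hδ⟩ hex
    obtain ⟨ρ, hρ, hρU⟩ := hS U hUS δ hδ hex
    exact ⟨ρ, hρ, fun x hx hxδ => ⟨U, hUS, hρU x hx hxδ⟩⟩

theorem isOpen_iff' {U : Set (P r E h)} : IsOpen U ↔
    ∀ δ ∈ U, (∃ x : P r E h, r (val x) (val δ)) →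
    ∃ ρ : P r E h, r (val ρ) (val δ) ∧
      ∀ x : P r E h, r (val ρ) (val x) → (r (val x) (val δ) ∨ x = δ) → x ∈ U := Iff.rfl

/-- the basic compact open sets -/
def KK (z : P r E h) : Set (P r E h) := {x | r (val x) (val z) ∨ x = z}

theorem self_mem_KK (z : P r E h) : z ∈ KK z := Or.inr rfl

theorem mem_KK_trans {x y z : P r E h} (h1 : x ∈ KK y) (h2 : y ∈ KK z) : x ∈ KK z := by
  rcases h1 with h1 | h1
  · rcases h2 with h2 | h2
    · exact Or.inl (h.trans _ _ _ h1 h2)
    · rw [h2] at h1; exact Or.inl h1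
  · rw [h1]; exact h2

theorem isOpen_KK (z : P r E h) : IsOpen (KK z) := by
  rw [isOpen_iff']
  rintro δ hδ ⟨ρ, hρ⟩
  exact ⟨ρ, hρ, fun x _ hx => mem_KK_trans (y := δ) hx hδ⟩

theorem isOpen_interval (ρ z : P r E h) :
    IsOpen {x : P r E h | r (val ρ) (val x) ∧ x ∈ KK z} := by
  rw [isOpen_iff']
  rintro δ ⟨h1, h2⟩ _
  exact ⟨ρ, h1, fun x hx hxδ => ⟨hx, mem_KK_trans (y := δ) hxδ h2⟩⟩

theorem isOpen_singleton' (z : P r E h) (hz : ¬ ∃ x : P r E h, r (val x) (val z)) :
    IsOpen {z} := by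
  rw [isOpen_iff']
  rintro δ hδ hex
  rw [Set.mem_singleton_iff] at hδ
  subst hδ
  exact absurd hex hz

/-- limits of nodes of `P` below `y` are nodes of `P` below `y` -/
theorem lim_mem (h : IsTree r) {s y : K} (hsy : s < y) (hlim : IsLim {x | x ∈ PSet r E ∧ r x y} s) :
    s ∈ PSet r E ∧ r s y := by
  have h1 : r s y := by
    refine h.closed s y hsy ⟨?_, ?_⟩
    · obtain ⟨x, hx, hxs⟩ := hlim.1
      exact ⟨x, hx.2, hxs⟩
    · intro u hu
      obtain ⟨x, hx, hxs⟩ := hlim.2 u hu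
      exact ⟨x, hx.2, hxs⟩
  refine ⟨?_, h1⟩
  intro w hw
  obtain ⟨x, hx, hwx, hxs⟩ := hlim.2 w (h.lt _ _ hw)
  have h2 : r w x := h.linear _ _ _ (h.trans _ _ _ hw h1) hx.2 hwx
  obtain ⟨ε, hε, h3, h4⟩ := hx.1 w h2
  exact ⟨ε, hε, h3, h4.trans hxs.le⟩

theorem lim_self [WellFoundedLT K] (h : IsTree r) {z : K} (hne : ∃ x ∈ PSet r E, r x z)
    (hnm : ∀ ρ ∈ PSet r E, r ρ z → ∃ x ∈ PSet r E, r x z ∧ ρ < x) :
    IsLim {x | x ∈ PSet r E ∧ r x z} z := by
  obtain ⟨s, hs, hmin⟩ := WellFounded.has_min (wellFounded_lt (α := K))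
    {s | ∀ x ∈ PSet r E, r x z → x < s} ⟨z, fun x _ hx => h.lt _ _ hx⟩
  have hs' : ∀ x ∈ PSet r E, r x z → x < s := hs
  have hlim : IsLim {x | x ∈ PSet r E ∧ r x z} s := by
    obtain ⟨x0, hx0, hx0z⟩ := hne
    refine ⟨⟨x0, ⟨hx0, hx0z⟩, hs' x0 hx0 hx0z⟩, ?_⟩
    intro u hu
    have : ∃ x ∈ PSet r E, r x z ∧ u ≤ x := by
      by_contra hcon
      push Not at hcon
      exact hmin u hcon hu
    obtain ⟨x, hx, hxz, hux⟩ := this
    obtain ⟨x', hx', hx'z, hxx'⟩ := hnm x hx hxz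
    exact ⟨x', ⟨hx', hx'z⟩, hux.trans_lt hxx', hs' x' hx' hx'z⟩
  have hsz : s ≤ z := not_lt.mp (fun hzs => hmin z (fun x _ hx => h.lt _ _ hx) hzs)
  rcases hsz.lt_or_eq with h1 | h1
  · obtain ⟨h2, h3⟩ := lim_mem h h1 hlim
    exact absurd (hs' s h2 h3) (lt_irrefl _)
  · rw [← h1] at hlim ⊢
    exact hlim

variable [WellFoundedLT K]

theorem isClosed_KK (z : P r E h) : IsClosed (KK z) := by
  rw [← isOpen_compl_iff, isOpen_iff']
  intro δ hδ hex
  by_contra hcon
  push Not at hcon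
  -- for each ρ below δ there is x with ρ ≺ x, x ≺ δ, x ⪯ z
  have key : ∀ ρ : P r E h, r (val ρ) (val δ) →
      ∃ x : P r E h, r (val ρ) (val x) ∧ r (val x) (val δ) ∧ x ∈ KK z := by
    intro ρ hρ
    obtain ⟨x, h1, h2, h3⟩ := hcon ρ hρ
    have h3' : x ∈ KK z := by simpa using h3
    rcases h2 with h2 | h2
    · exact ⟨x, h1, h2, h3'⟩
    · rw [h2] at h3'
      exact absurd h3' hδ
  have key2 : ∀ ρ : P r E h, r (val ρ) (val δ) →
      ∃ x : P r E h, r (val ρ) (val x) ∧ r (val x) (val δ) ∧ r (val x) (val z) := by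
    intro ρ hρ
    obtain ⟨x, h1, h2, h3⟩ := key ρ hρ
    rcases h3 with h3 | h3
    · exact ⟨x, h1, h2, h3⟩
    · subst h3
      obtain ⟨y, h4, h5, h6⟩ := key x h2
      rcases h6 with h6 | h6
      · exact absurd (h.lt _ _ (h.trans _ _ _ h4 h6)) (lt_irrefl _)
      · rw [h6] at h4
        exact absurd (h.lt _ _ h4) (lt_irrefl _)
  have hlim : IsLim {x | x ∈ PSet r E ∧ r x (val δ)} (val δ) := by
    refine lim_self h ?_ ?_
    · obtain ⟨x, hx⟩ := hex
      exact ⟨val x, val_mem x, hx⟩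
    · intro ρ hρ hρδ
      obtain ⟨x, h1, h2, _⟩ := key2 (mkP h ρ hρ) hρδ
      exact ⟨val x, val_mem x, h2, h.lt _ _ h1⟩
  have hlim2 : IsLim {x | r x (val z)} (val δ) := by
    refine ⟨?_, ?_⟩
    · obtain ⟨x, hx⟩ := hex
      obtain ⟨x', h1, h2, h3⟩ := key2 x hx
      exact ⟨val x', h3, h.lt _ _ h2⟩
    · intro u hu
      obtain ⟨x, hx, hux, _⟩ := hlim.2 u hu
      obtain ⟨x', h1, h2, h3⟩ := key2 (mkP h x hx.1) hx.2
      exact ⟨val x', h3, hux.trans (h.lt _ _ h1), h.lt _ _ h2⟩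
  rcases lt_trichotomy (val δ) (val z) with h1 | h1 | h1
  · exact hδ (Or.inl (h.closed _ _ h1 hlim2))
  · exact hδ (Or.inr (val_inj h1))
  · obtain ⟨x, hx, hzx, _⟩ := hlim2.2 (val z) h1
    exact absurd (h.lt _ _ hx) (not_lt.mpr hzx.le)

theorem isClopen_KK (z : P r E h) : IsClopen (KK z) := ⟨isClosed_KK z, isOpen_KK z⟩

instance : T2Space (P r E h) := by
  refine ⟨?_⟩
  intro x y hxy
  wlog hlt : val x < val y generalizing x y with H
  · have : val y < val x := by
      rcases lt_trichotomy (val x) (val y) with h1 | h1 | h1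
      · exact absurd h1 hlt
      · exact absurd (val_inj h1) hxy
      · exact h1
    obtain ⟨u, v, hu, hv, hyu, hxv, huv⟩ := H hxy.symm this
    exact ⟨v, u, hv, hu, hxv, hyu, huv.symm⟩
  -- KK x contains x, not y
  refine ⟨KK x, (KK x)ᶜ, isOpen_KK x, (isClosed_KK x).isOpen_compl, self_mem_KK x, ?_,
    disjoint_compl_right⟩
  rintro (h1 | h1)
  · exact absurd (h.lt _ _ h1) (not_lt.mpr hlt.le)
  · exact hxy h1.symm

theorem isCompact_KK (z : P r E h) : IsCompact (KK z) := by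
  have main : ∀ k : K, ∀ z : P r E h, val z = k → IsCompact (KK z) := by
    intro k
    induction k using WellFoundedLT.induction with
    | ind k ih =>
      intro z hz f hf hfz
      by_cases hcl : ClusterPt z f
      · exact ⟨z, self_mem_KK z, hcl⟩
      · have h1 : Disjoint (𝓝 z) f := by
          rw [disjoint_iff]
          by_contra h2
          exact hcl ⟨h2⟩
        obtain ⟨s, hs, t, ht, hst⟩ := Filter.disjoint_iff.mp h1
        obtain ⟨U, hUs, hU, hzU⟩ := mem_nhds_iff.mp hs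
        by_cases hex : ∃ x : P r E h, r (val x) (val z)
        · obtain ⟨ρ, hρ, hρU⟩ := isOpen_iff'.mp hU z hzU hex
          have h3 : t ∩ KK z ⊆ KK ρ := by
            rintro x ⟨hxt, hxz⟩
            have hxU : x ∉ U := fun hxU => Set.disjoint_left.mp hst (hUs hxU) hxt
            rcases hxz with hxz | hxz
            · rcases lt_trichotomy (val x) (val ρ) with h4 | h4 | h4
              · exact Or.inl (h.linear _ _ _ hxz hρ h4)
              · exact Or.inr (val_inj h4)
              · exact absurd (hρU x (h.linear _ _ _ hρ hxz h4) (Or.inl hxz)) hxU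
            · rw [hxz] at hxU
              exact absurd hzU hxU
          have h4 : f ≤ Filter.principal (KK ρ) := by
            rw [Filter.le_principal_iff]
            exact Filter.mem_of_superset (Filter.inter_mem ht (Filter.le_principal_iff.mp hfz)) h3
          obtain ⟨x, hx, hxc⟩ := ih (val ρ) (hz ▸ h.lt _ _ hρ) ρ rfl h4
          exact ⟨x, mem_KK_trans hx (Or.inl hρ), hxc⟩
        · exfalso
          have h3 : KK z ⊆ {z} := by
            rintro x (hx | hx)
            · exact absurd ⟨x, hx⟩ hex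
            · exact hx
          have h4 : z ∉ t := fun hzt => Set.disjoint_left.mp hst (hUs hzU) hzt
          have h5 : t ∩ KK z = ∅ := by
            ext x
            simp only [Set.mem_inter_iff, Set.mem_empty_iff_false, iff_false]
            rintro ⟨h6, h7⟩
            have := h3 h7
            rw [Set.mem_singleton_iff] at this
            rw [this] at h6
            exact h4 h6
          have h6 : t ∩ KK z ∈ f := Filter.inter_mem ht (Filter.le_principal_iff.mp hfz)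
          rw [h5] at h6
          exact Filter.NeBot.ne hf (Filter.empty_mem_iff_bot.mp h6)
  exact main _ z rfl

instance : WeaklyLocallyCompactSpace (P r E h) :=
  ⟨fun z => ⟨KK z, isCompact_KK z, (isOpen_KK z).mem_nhds (self_mem_KK z)⟩⟩

theorem closure_subset (A : Set (P r E h)) :
    closure A ⊆ A ∪ {z | IsLim (val '' A) (val z)} := by
  intro z hz
  by_cases hzA : z ∈ A
  · exact Or.inl hzA
  right
  rw [mem_closure_iff] at hz
  have hex : ∃ x : P r E h, r (val x) (val z) := by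
    by_contra hcon
    obtain ⟨a, ha, haA⟩ := hz {z} (isOpen_singleton' z hcon) rfl
    rw [Set.mem_singleton_iff] at ha
    rw [ha] at haA
    exact hzA haA
  have key : ∀ ρ : P r E h, r (val ρ) (val z) → ∃ a ∈ A, r (val ρ) (val a) ∧ r (val a) (val z) := by
    intro ρ hρ
    obtain ⟨a, ⟨ha1, ha2⟩, haA⟩ := hz _ (isOpen_interval ρ z) ⟨hρ, self_mem_KK z⟩
    refine ⟨a, haA, ha1, ?_⟩
    rcases ha2 with h1 | h1
    · exact h1
    · rw [h1] at haA
      exact absurd haA hzA
  have hlim : IsLim {x | x ∈ PSet r E ∧ r x (val z)} (val z) := by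
    refine lim_self h ?_ ?_
    · obtain ⟨x, hx⟩ := hex
      exact ⟨val x, val_mem x, hx⟩
    · intro ρ hρ hρδ
      obtain ⟨x, _, h1, h2⟩ := key (mkP h ρ hρ) hρδ
      exact ⟨val x, val_mem x, h2, h.lt _ _ h1⟩
  refine ⟨?_, ?_⟩
  · obtain ⟨x, hx⟩ := hex
    obtain ⟨a, ha, h1, h2⟩ := key x hx
    exact ⟨val a, ⟨a, ha, rfl⟩, h.lt _ _ h2⟩
  · intro u hu
    obtain ⟨x, hx, hux, _⟩ := hlim.2 u hu
    obtain ⟨a, ha, h1, h2⟩ := key (mkP h x hx.1) hx.2
    exact ⟨val a, ⟨a, ha, rfl⟩, hux.trans (h.lt _ _ h1), h.lt _ _ h2⟩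

theorem mk_closure_le (A : Set (P r E h)) : #(closure A) ≤ #A + (#A + 1) := by
  refine (Cardinal.mk_le_mk_of_subset (closure_subset A)).trans ?_
  refine (Cardinal.mk_union_le _ _).trans (add_le_add le_rfl ?_)
  have h1 : #{z : P r E h | IsLim (val '' A) (val z)} ≤ #{s : K | IsLim (val '' A) s} := by
    refine Cardinal.mk_le_of_injective
      (f := fun z : {z : P r E h | IsLim (val '' A) (val z)} =>
        (⟨val z.1, z.2⟩ : {s : K | IsLim (val '' A) s})) ?_
    intro z w hzw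
    apply Subtype.ext
    apply val_inj
    simpa using hzw
  refine h1.trans ((isLim_card _).trans ?_)
  exact add_le_add Cardinal.mk_image_le le_rfl

/-- closures in the one-point compactification are small -/
theorem mk_closure_onePoint_le (A : Set (OnePoint (P r E h))) :
    #(closure A) ≤ max #A ℵ₀ := by
  have h1 : closure A ⊆ ((fun x : P r E h => (x : OnePoint (P r E h))) ''
      closure ((fun x : P r E h => (x : OnePoint (P r E h))) ⁻¹' A)) ∪ {OnePoint.infty} := by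
    intro z hz
    induction z using OnePoint.rec with
    | infty => exact Or.inr rfl
    | coe z =>
      left
      refine ⟨z, ?_, rfl⟩
      exact (OnePoint.isOpenEmbedding_coe (X := P r E h)).isOpenMap.preimage_closure_subset_closure_preimage hz
  have h2 : #((fun x : P r E h => (x : OnePoint (P r E h))) ⁻¹' A) ≤ #A :=
    Cardinal.mk_preimage_of_injective _ _ (OnePoint.coe_injective)
  set κ := max #A ℵ₀ with hκ
  have hκ0 : ℵ₀ ≤ κ := le_max_right _ _
  have h3 : #((fun x : P r E h => (x : OnePoint (P r E h))) ⁻¹' A) ≤ κ := h2.trans (le_max_left _ _)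
  have h4 : (1 : Cardinal.{0}) ≤ κ := Cardinal.one_le_aleph0.trans hκ0
  have hadd : κ + κ = κ := Cardinal.add_eq_self hκ0
  calc #(closure A) ≤ #((fun x : P r E h => (x : OnePoint (P r E h))) ''
      closure ((fun x : P r E h => (x : OnePoint (P r E h))) ⁻¹' A) ∪ {OnePoint.infty} : Set _) :=
        Cardinal.mk_le_mk_of_subset h1
    _ ≤ #((fun x : P r E h => (x : OnePoint (P r E h))) ''
      closure ((fun x : P r E h => (x : OnePoint (P r E h))) ⁻¹' A) : Set _)
        + #({OnePoint.infty} : Set (OnePoint (P r E h))) := Cardinal.mk_union_le _ _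
    _ ≤ (κ + (κ + κ)) + κ := by
        refine add_le_add (Cardinal.mk_image_le.trans ((mk_closure_le _).trans ?_)) ?_
        · exact add_le_add h3 (add_le_add h3 h4)
        · rw [Cardinal.mk_singleton]; exact h4
    _ = κ := by rw [hadd, hadd, hadd]

end space

end Pool.Agent.Lib.MP_64b69f
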