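import Pool.Agent.Lib.MP_64b69f_gt.WO

set_option autoImplicit false

namespace Pool.Agent.Lib.MP_64b69f

open Set Cardinal

/-- tree-like relations on a linear order, closed under limits -/
structure IsTree {K : Type} [LinearOrder K] (r : K → K → Prop) : Prop where
  lt : ∀ x y, r x y → x < y
  trans : ∀ x y z, r x y → r y z → r x z
  linear : ∀ x y z, r x z → r y z → x < y → r x y
  closed : ∀ s y, s < y → IsLim {x | r x y} s → r s y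

/-- every countable subset of `Iio α` is bounded strictly below `α`. -/
def CB {K : Type} [LinearOrder K] (α : K) : Prop :=
  ∀ Q : Set K, Q.Countable → (∀ q ∈ Q, q < α) → ∃ u < α, ∀ q ∈ Q, q < u

theorem mk_biUnion_le' {ι α : Type} (s : Set ι) (A : ι → Set α) {κ : Cardinal.{0}}
    (hκ : ℵ₀ ≤ κ) (hs : #s ≤ κ) (hA : ∀ i ∈ s, #(A i) ≤ κ) :
    #(⋃ i ∈ s, A i : Set α) ≤ κ := by
  refine (Cardinal.mk_biUnion_le A s).trans ?_
  refine (mul_le_mul' hs (ciSup_le' (fun i : s => hA i.1 i.2))).trans ?_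
  rw [Cardinal.mul_eq_self hκ]

section tree
variable {K Λ : Type} [LinearOrder K] [WellFoundedLT K] [LinearOrder Λ] [WellFoundedLT Λ]

def AA (e : K → K → Λ) (ν : Λ) (α : K) : Set K := {β | β < α ∧ e α β < ν}

def Good (e : K → K → Λ) (ν : Λ) (α : K) : Prop :=
  ∀ β ∈ AA e ν α, AA e ν β = AA e ν α ∩ Set.Iio β

def OCl (e : K → K → Λ) (ν : Λ) (α : K) : Prop :=
  ∀ s < α, ∀ Q : Set K, Q.Countable → Q ⊆ AA e ν α → IsLim Q s → s ∈ AA e ν α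

def GG (e : K → K → Λ) (ν : Λ) (α : K) : Prop := Good e ν α ∧ OCl e ν α

def RR (e : K → K → Λ) (ν : Λ) (β α : K) : Prop := GG e ν α ∧ β ∈ AA e ν α

omit [WellFoundedLT K] [WellFoundedLT Λ] in
theorem GG_down {e : K → K → Λ} {ν : Λ} {β α : K} (h : RR e ν β α) : GG e ν β := by
  obtain ⟨⟨hg, ho⟩, hβ⟩ := h
  have h1 := hg β hβ
  refine ⟨?_, ?_⟩
  · intro γ hγ
    rw [h1] at hγ
    rw [hg γ hγ.1, h1]
    ext x
    simp only [mem_inter_iff, mem_Iio]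
    constructor
    · rintro ⟨a, b⟩
      exact ⟨⟨a, b.trans hγ.2⟩, b⟩
    · rintro ⟨⟨a, _⟩, b⟩
      exact ⟨a, b⟩
  · intro s hs Q hQ hQA hlim
    rw [h1] at hQA ⊢
    exact ⟨ho s (hs.trans hβ.1) Q hQ (fun q hq => (hQA hq).1) hlim, hs⟩

omit [WellFoundedLT K] [WellFoundedLT Λ] in
theorem RR_trans {e : K → K → Λ} {ν : Λ} {γ β α : K} (h1 : RR e ν γ β) (h2 : RR e ν β α) :
    RR e ν γ α := by
  refine ⟨h2.1, ?_⟩
  have := h2.1.1 β h2.2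
  have h3 := h1.2
  rw [this] at h3
  exact h3.1

omit [WellFoundedLT K] [WellFoundedLT Λ] in
theorem RR_linear {e : K → K → Λ} {ν : Λ} {γ β α : K} (h1 : RR e ν β α) (h2 : RR e ν γ α)
    (h : β < γ) : RR e ν β γ := by
  refine ⟨GG_down h2, ?_⟩
  rw [h2.1.1 γ h2.2]
  exact ⟨h1.2, h⟩

omit [WellFoundedLT K] [WellFoundedLT Λ] in
theorem AA_card {e : K → K → Λ} (he : ∀ α, Set.InjOn (e α) (Set.Iio α)) (hΛ : Reg Λ ℵ₁)
    (ν : Λ) (α : K) : #(AA e ν α) ≤ ℵ₁ := by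
  have h1 : Set.InjOn (e α) (AA e ν α) := (he α).mono (fun β hβ => hβ.1)
  rw [← Cardinal.mk_image_eq_of_injOn _ _ h1]
  refine (Cardinal.mk_le_mk_of_subset ?_).trans (hΛ.small ν)
  rintro _ ⟨β, hβ, rfl⟩
  exact hβ.2

theorem exists_rk {e : K → K → Λ} (he : ∀ α, Set.InjOn (e α) (Set.Iio α)) (hΛ : Reg Λ ℵ₁)
    (ν : Λ) : ∃ rk : K → Λ, ∀ α, (∀ β, RR e ν β α → rk β < rk α) ∧
      ∀ v, (∀ β, RR e ν β α → rk β < v) → rk α ≤ v := by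
  classical
  have hne : Nonempty Λ := ⟨ν⟩
  let step : ∀ α : K, (∀ y, y < α → Λ) → Λ := fun α ih =>
    Classical.epsilon (fun v => (∀ β (h : β < α), RR e ν β α → ih β h < v) ∧
      ∀ w, (∀ β (h : β < α), RR e ν β α → ih β h < w) → v ≤ w)
  let rk : K → Λ := (wellFounded_lt (α := K)).fix step
  refine ⟨rk, fun α => ?_⟩
  have h1 : rk α = step α (fun y _ => rk y) := (wellFounded_lt (α := K)).fix_eq step α
  have h2 : ∃ v, (∀ β (h : β < α), RR e ν β α → rk β < v) ∧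
      ∀ w, (∀ β (h : β < α), RR e ν β α → rk β < w) → v ≤ w := by
    obtain ⟨b, hb⟩ := hΛ.bdd (rk '' AA e ν α) (Cardinal.mk_image_le.trans (AA_card he hΛ ν α))
    obtain ⟨v, hv, hmin⟩ := WellFounded.has_min (wellFounded_lt (α := Λ))
      {v | ∀ β (h : β < α), RR e ν β α → rk β < v} ⟨b, fun β _ h => hb _ ⟨β, h.2, rfl⟩⟩
    exact ⟨v, hv, fun w hw => not_lt.mp (fun h => hmin w hw h)⟩
  have h3 := Classical.epsilon_spec h2
  rw [h1]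
  exact ⟨fun β hβ => h3.1 β hβ.2.1 hβ, fun v hv => h3.2 v (fun β _ h => hv β h)⟩

theorem exists_nu {e : K → K → Λ} (he : ∀ α, Set.InjOn (e α) (Set.Iio α)) (hΛ : Reg Λ ℵ₁)
    (α : K) (hS : ∃ S : Set K, #S ≤ ℵ₁ ∧ (∀ s ∈ S, s < α) ∧ ∀ u < α, ∃ s ∈ S, u < s) :
    ∃ ν, GG e ν α ∧ ∀ u < α, ∃ β ∈ AA e ν α, u < β := by
  obtain ⟨S, hS1, hS2, hS3⟩ := hS
  have hω : ℵ₀ ≤ (ℵ₁ : Cardinal.{0}) := Cardinal.aleph0_lt_aleph_one.le
  have hB : ∀ (β : K) (μ : Λ), #{γ | γ < β ∧ e β γ ≤ μ} ≤ ℵ₁ := by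
    intro β μ
    have h1 : Set.InjOn (e β) {γ | γ < β ∧ e β γ ≤ μ} := (he β).mono (fun γ hγ => hγ.1)
    rw [← Cardinal.mk_image_eq_of_injOn _ _ h1]
    refine (Cardinal.mk_le_mk_of_subset ?_).trans (mk_Iic_le hΛ hω μ)
    rintro _ ⟨β, hβ, rfl⟩
    exact hβ.2
  have hV : ∀ μ : Λ, ∃ v, (∀ β < α, ∀ γ < β, e α β ≤ μ → e β γ ≤ μ → e α γ < v) ∧
      (∀ β < α, ∀ γ < β, e α β ≤ μ → e α γ ≤ μ → e β γ < v) ∧
      (∀ s < α, IsLim {γ | γ < α ∧ e α γ ≤ μ} s → e α s < v) := by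
    intro μ
    obtain ⟨v1, hv1⟩ := hΛ.bdd (⋃ β ∈ {γ | γ < α ∧ e α γ ≤ μ}, e α '' {γ | γ < β ∧ e β γ ≤ μ})
      (mk_biUnion_le' _ _ hω (hB α μ) (fun β _ => Cardinal.mk_image_le.trans (hB β μ)))
    obtain ⟨v2, hv2⟩ := hΛ.bdd (⋃ β ∈ {γ | γ < α ∧ e α γ ≤ μ}, e β '' {γ | γ < α ∧ e α γ ≤ μ})
      (mk_biUnion_le' _ _ hω (hB α μ) (fun β _ => Cardinal.mk_image_le.trans (hB α μ)))
    obtain ⟨v3, hv3⟩ := hΛ.bdd (e α '' {s | IsLim {γ | γ < α ∧ e α γ ≤ μ} s})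
      (by
        refine Cardinal.mk_image_le.trans ((isLim_card _).trans ?_)
        calc #{γ | γ < α ∧ e α γ ≤ μ} + 1 ≤ ℵ₁ + ℵ₁ :=
              add_le_add (hB α μ) (Cardinal.one_le_aleph0.trans hω)
          _ = ℵ₁ := Cardinal.add_eq_self hω)
    refine ⟨max v1 (max v2 v3), ?_, ?_, ?_⟩
    · intro β hβ γ hγ h1 h2
      refine lt_of_lt_of_le (hv1 _ ?_) (le_max_left _ _)
      exact Set.mem_biUnion (show β ∈ {γ | γ < α ∧ e α γ ≤ μ} from ⟨hβ, h1⟩) ⟨γ, ⟨hγ, h2⟩, rfl⟩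
    · intro β hβ γ hγ h1 h2
      refine lt_of_lt_of_le (hv2 _ ?_) ((le_max_left _ _).trans (le_max_right _ _))
      exact Set.mem_biUnion (show β ∈ {γ | γ < α ∧ e α γ ≤ μ} from ⟨hβ, h1⟩)
        ⟨γ, ⟨hγ.trans hβ, h2⟩, rfl⟩
    · intro s hs h
      refine lt_of_lt_of_le (hv3 _ ?_) ((le_max_right _ _).trans (le_max_right _ _))
      exact ⟨s, h, rfl⟩
  choose V hV1 hV2 hV3 using hV
  obtain ⟨m₀, hm₀⟩ := hΛ.bdd (e α '' S) (Cardinal.mk_image_le.trans hS1)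
  obtain ⟨ν, hν0, hν1, hν2, -⟩ := exists_closure_point hΛ le_rfl V m₀
  have hclo : ∀ μ < ν, V μ < ν := by
    intro μ hμ
    obtain ⟨ε, h1, h2, h3⟩ := hν1 μ hμ
    exact (h1 μ h2).trans h3
  refine ⟨ν, ⟨?_, ?_⟩, ?_⟩
  · intro β hβ
    ext γ
    constructor
    · intro hγ
      refine ⟨⟨hγ.1.trans hβ.1, ?_⟩, hγ.1⟩
      have h1 := hV1 (max (e α β) (e β γ)) β hβ.1 γ hγ.1 (le_max_left _ _) (le_max_right _ _)
      exact h1.trans (hclo _ (max_lt hβ.2 hγ.2))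
    · rintro ⟨hγ, hγβ⟩
      refine ⟨hγβ, ?_⟩
      have h1 := hV2 (max (e α β) (e α γ)) β hβ.1 γ hγβ (le_max_left _ _) (le_max_right _ _)
      exact h1.trans (hclo _ (max_lt hβ.2 hγ.2))
  · intro s hs Q hQ hQA hlim
    refine ⟨hs, ?_⟩
    obtain ⟨u, hu, hq⟩ := hν2 (e α '' Q) (hQ.image _) (by
      rintro _ ⟨q, hqQ, rfl⟩
      exact (hQA hqQ).2)
    refine (hV3 u s hs ⟨?_, ?_⟩).trans (hclo u hu)
    · obtain ⟨q, hqQ, h⟩ := hlim.1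
      exact ⟨q, ⟨(hQA hqQ).1, (hq _ ⟨q, hqQ, rfl⟩).le⟩, h⟩
    · intro w hw
      obtain ⟨q, hqQ, h⟩ := hlim.2 w hw
      exact ⟨q, ⟨(hQA hqQ).1, (hq _ ⟨q, hqQ, rfl⟩).le⟩, h⟩
  · intro u hu
    obtain ⟨s, hs, hus⟩ := hS3 u hu
    exact ⟨s, ⟨hS2 s hs, (hm₀ _ ⟨s, hs, rfl⟩).trans hν0⟩, hus⟩

omit [LinearOrder K] [WellFoundedLT K] in
theorem exists_c (hΛ : Reg Λ ℵ₁) (τ : Λ) : ∃ c : Set Λ, (∀ x ∈ c, x < τ) ∧
    (CB τ → ∀ ξ < τ, ∃ x ∈ c, ξ ≤ x) ∧ (∀ s < τ, IsLim c s → s ∈ c) ∧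
    (∀ ξ < τ, (c ∩ Set.Iio ξ).Countable) := by
  by_cases h : CB τ
  · obtain ⟨c, h1, h2, h3, h4⟩ := exists_club τ (hΛ.small τ) h
    exact ⟨c, h1, fun _ => h2, h3, h4⟩
  · refine ⟨∅, by simp, fun h' => absurd h' h, ?_, by simp⟩
    intro s _ hlim
    obtain ⟨a, ha, _⟩ := hlim.1
    exact absurd ha (Set.notMem_empty a)

/-- Lemma A -/
theorem lemmaA (hK : ∀ α : K, #(Set.Iio α) ≤ #Λ) (hΛ : Reg Λ ℵ₁) :
    ∃ r : Λ × Λ → K → K → Prop, (∀ j, IsTree (r j)) ∧ (∀ j α, #{x | r j x α} ≤ ℵ₁) ∧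
     ∀ α : K, CB α →
      (∃ S : Set K, #S ≤ ℵ₁ ∧ (∀ s ∈ S, s < α) ∧ ∀ u < α, ∃ s ∈ S, u < s) →
      ∃ j, ∀ u < α, ∃ x, r j x α ∧ u < x := by
  classical
  have he : ∀ α : K, ∃ f : K → Λ, Set.InjOn f (Set.Iio α) := by
    intro α
    obtain ⟨f⟩ := (Cardinal.le_def _ _).mp (hK α)
    obtain ⟨d, -⟩ := hΛ.bdd ∅ (by simp)
    refine ⟨fun x => if h : x < α then f ⟨x, h⟩ else d, ?_⟩
    intro x hx y hy hxy
    have hx' : x < α := hx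
    have hy' : y < α := hy
    simp only [hx', hy', dif_pos] at hxy
    have := f.injective hxy
    simpa using this
  choose e he using he
  choose rk hrk1 hrk2 using fun ν => exists_rk he hΛ ν
  choose c hc1 hc2 hc3 hc4 using exists_c (Λ := Λ) hΛ
  let N : Λ → Λ → K → Prop := fun ν τ x =>
    rk ν x ∈ c τ ∨ (rk ν x = τ ∧ ∀ u < x, ∃ β ∈ AA e ν x, u ≤ β)
  have hNle : ∀ ν τ x, N ν τ x → rk ν x ≤ τ := by
    intro ν τ x hx
    rcases hx with h | h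
    · exact (hc1 τ _ h).le
    · exact h.1.le
  have hN' : ∀ ν τ x, N ν τ x → rk ν x < τ → rk ν x ∈ c τ := by
    intro ν τ x hx hlt
    rcases hx with h | h
    · exact h
    · exact absurd h.1 hlt.ne
  refine ⟨fun j x y => RR e j.1 x y ∧ N j.1 j.2 x ∧ N j.1 j.2 y, ?_, ?_, ?_⟩
  · rintro ⟨ν, τ⟩
    refine ⟨?_, ?_, ?_, ?_⟩
    · rintro x y ⟨h, -, -⟩
      exact h.2.1
    · rintro x y z ⟨h1, h2, h3⟩ ⟨h4, h5, h6⟩
      exact ⟨RR_trans h1 h4, h2, h6⟩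
    · rintro x y z ⟨h1, h2, h3⟩ ⟨h4, h5, h6⟩ hxy
      exact ⟨RR_linear h1 h4 hxy, h2, h5⟩
    · intro s y hsy hlim
      simp only at hlim ⊢
      -- the set of predecessors below s
      obtain ⟨x0, hx0, hx0s⟩ := hlim.1
      have hG : GG e ν y := hx0.1.1
      have hNy : N ν τ y := hx0.2.2
      -- a bound for the ranks
      have hbd : ∃ ξ < τ, ∀ x, RR e ν x y → N ν τ x → x < s → rk ν x < ξ := by
        rcases hNy with h | ⟨h1, h2⟩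
        · exact ⟨rk ν y, hc1 τ _ h, fun x hx _ _ => hrk1 ν y x hx⟩
        · obtain ⟨β, hβ, hsβ⟩ := h2 s hsy
          refine ⟨rk ν β, ?_, ?_⟩
          · rw [← h1]
            exact hrk1 ν y β ⟨hG, hβ⟩
          · intro x hx _ hxs
            exact hrk1 ν β x (RR_linear hx ⟨hG, hβ⟩ (hxs.trans_le hsβ))
      obtain ⟨ξ, hξ, hξb⟩ := hbd
      have hcount : {x | (RR e ν x y ∧ N ν τ x ∧ N ν τ y) ∧ x < s}.Countable := by
        have h1 : (rk ν '' {x | (RR e ν x y ∧ N ν τ x ∧ N ν τ y) ∧ x < s}).Countable := by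
          refine (hc4 τ ξ hξ).mono ?_
          rintro _ ⟨x, ⟨⟨h1, h2, _⟩, h4⟩, rfl⟩
          have h5 := hξb x h1 h2 h4
          exact ⟨hN' ν τ x h2 (h5.trans hξ), h5⟩
        refine Set.countable_of_injective_of_countable_image ?_ h1
        intro x hx x' hx' hxx'
        by_contra hne
        rcases lt_or_gt_of_ne hne with h | h
        · exact absurd hxx' (hrk1 ν x' x (RR_linear hx.1.1 hx'.1.1 h)).ne
        · exact absurd hxx' (hrk1 ν x x' (RR_linear hx'.1.1 hx.1.1 h)).ne'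
      have hsA : s ∈ AA e ν y := by
        refine hG.2 s hsy _ hcount (fun x hx => hx.1.1.2) ⟨?_, ?_⟩
        · exact ⟨x0, ⟨hx0, hx0s⟩, hx0s⟩
        · intro u hu
          obtain ⟨x, hx, hux, hxs⟩ := hlim.2 u hu
          exact ⟨x, ⟨hx, hxs⟩, hux, hxs⟩
      have hsR : RR e ν s y := ⟨hG, hsA⟩
      refine ⟨hsR, Or.inl ?_, hNy⟩
      have hsy' : rk ν s < τ := (hrk1 ν y s hsR).trans_le (hNle ν τ y hNy)
      refine hc3 τ _ hsy' ⟨?_, ?_⟩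
      · have h1 := hrk1 ν s x0 (RR_linear hx0.1 hsR hx0s)
        exact ⟨rk ν x0, hN' ν τ x0 hx0.2.1 (h1.trans hsy'), h1⟩
      · intro u hu
        have : ∃ β, RR e ν β s ∧ u ≤ rk ν β := by
          by_contra hcon
          push Not at hcon
          exact absurd (hrk2 ν s u hcon) (not_le.mpr hu)
        obtain ⟨β, hβ, hβu⟩ := this
        obtain ⟨x, hx, hβx, hxs⟩ := hlim.2 β hβ.2.1
        have h1 := hrk1 ν s x (RR_linear hx.1 hsR hxs)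
        have h2 := hrk1 ν x β (RR_linear hβ (RR_linear hx.1 hsR hxs) hβx)
        exact ⟨rk ν x, hN' ν τ x hx.2.1 (h1.trans hsy'), hβu.trans_lt h2, h1⟩
  · rintro ⟨ν, τ⟩ α
    refine (Cardinal.mk_le_mk_of_subset ?_).trans (AA_card he hΛ ν α)
    rintro x ⟨h, -, -⟩
    exact h.2
  · intro α hα hS
    obtain ⟨ν, hG, hcof⟩ := exists_nu he hΛ α hS
    have hτ : CB (rk ν α) := by
      intro Q hQ hQτ
      have h1 : ∀ q ∈ Q, ∃ β, RR e ν β α ∧ q ≤ rk ν β := by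
        intro q hq
        by_contra hcon
        push Not at hcon
        exact absurd (hrk2 ν α q hcon) (not_le.mpr (hQτ q hq))
      have : Nonempty K := ⟨α⟩
      choose! b hb1 hb2 using h1
      obtain ⟨u, hu, hub⟩ := hα (b '' Q) (hQ.image _) (by
        rintro _ ⟨q, hq, rfl⟩
        exact (hb1 q hq).2.1)
      obtain ⟨β, hβ, hβu⟩ := hcof u hu
      refine ⟨rk ν β, hrk1 ν α β ⟨hG, hβ⟩, ?_⟩
      intro q hq
      refine (hb2 q hq).trans_lt (hrk1 ν β _ (RR_linear (hb1 q hq) ⟨hG, hβ⟩ ?_))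
      exact (hub _ ⟨q, hq, rfl⟩).trans hβu
    refine ⟨(ν, rk ν α), ?_⟩
    intro u hu
    obtain ⟨β, hβ, hβu⟩ := hcof u hu
    obtain ⟨β', hβ', hββ'⟩ := hcof β hβ.1
    obtain ⟨ξ, hξ, hξ'⟩ := hc2 _ hτ (rk ν β') (hrk1 ν α β' ⟨hG, hβ'⟩)
    have hξα := hc1 _ ξ hξ
    have h1 : ∃ x, RR e ν x α ∧ ξ ≤ rk ν x := by
      by_contra hcon
      push Not at hcon
      exact absurd (hrk2 ν α ξ hcon) (not_le.mpr hξα)
    obtain ⟨x, ⟨hx1, hx2⟩, hmin⟩ := WellFounded.has_min (wellFounded_lt (α := K))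
      {x | RR e ν x α ∧ ξ ≤ rk ν x} h1
    have hxξ : rk ν x = ξ := by
      refine le_antisymm (hrk2 ν x ξ ?_) hx2
      intro γ hγ
      by_contra h
      exact hmin γ ⟨RR_trans hγ hx1, not_lt.mp h⟩ hγ.2.1
    refine ⟨x, ⟨hx1, Or.inl ?_, Or.inr ⟨rfl, ?_⟩⟩, ?_⟩
    · change rk ν x ∈ c (rk ν α)
      rw [hxξ]
      exact hξ
    · intro w hw
      obtain ⟨β, hβ, h⟩ := hcof w hw
      exact ⟨β, hβ, h.le⟩
    · refine lt_of_lt_of_le hβu ?_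
      by_contra h
      push Not at h
      have h2 := hrk1 ν β x (RR_linear hx1 ⟨hG, hβ⟩ h)
      have h3 := hrk1 ν β' β (RR_linear ⟨hG, hβ⟩ ⟨hG, hβ'⟩ hββ')
      rw [hxξ] at h2
      exact absurd hξ' (not_le.mpr (h2.trans h3))

end tree

end Pool.Agent.Lib.MP_64b69f
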