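import Mathlib

set_option autoImplicit false

namespace Pool.Agent.Lib.MP_64b69f

open Set Cardinal

/-- `M` behaves like the successor cardinal of `θ`. -/
structure Reg (M : Type) [LinearOrder M] (θ : Cardinal.{0}) : Prop where
  small : ∀ m : M, #(Set.Iio m) ≤ θ
  bdd : ∀ A : Set M, #A ≤ θ → ∃ m, ∀ a ∈ A, a < m

theorem exists_reg (θ : Cardinal.{0}) (hθ : ℵ₀ ≤ θ) :
    ∃ (M : Type) (_ : LinearOrder M) (_ : WellFoundedLT M), Reg M θ ∧ #M = Order.succ θ := by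
  refine ⟨(Order.succ θ).ord.ToType, inferInstance, inferInstance, ⟨?_, ?_⟩, ?_⟩
  · intro m
    have := Cardinal.mk_Iio_lt m (by simp)
    rw [mk_ord_toType] at this
    exact Order.lt_succ_iff.mp this
  · intro A hA
    by_contra hcon
    push Not at hcon
    have hc : IsCofinal A := fun x => hcon x
    have := Order.cof_le hc
    rw [Ordinal.cof_toType, (isRegular_succ hθ).cof_ord] at this
    exact absurd (this.trans hA) (not_le.mpr (Order.lt_succ θ))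
  · exact mk_ord_toType _

theorem mk_le_aleph_one {S : Type} [LinearOrder S] [WellFoundedLT S]
    (h : ∀ s : S, (Set.Iio s).Countable) : #S ≤ ℵ₁ := by
  by_contra hcon
  push Not at hcon
  have h1 : (ℵ₁ : Cardinal.{0}).ord < Ordinal.type ((· < ·) : S → S → Prop) := by
    by_contra h2
    push Not at h2
    have h3 := Ordinal.card_le_card h2
    rw [Ordinal.card_type, Cardinal.card_ord] at h3
    exact absurd h3 (not_le.mpr hcon)
  obtain ⟨x, hx⟩ := Ordinal.typein_surj ((· < ·) : S → S → Prop) h1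
  have h4 : #(Set.Iio x) = ℵ₁ := by
    have : (Ordinal.typein ((· < ·) : S → S → Prop) x).card = ℵ₁ := by
      rw [hx, Cardinal.card_ord]
    rw [← this]
    exact (Ordinal.card_typein (r := ((· < ·) : S → S → Prop)) x).symm
  have h5 : #(Set.Iio x) ≤ ℵ₀ := Cardinal.mk_le_aleph0_iff.mpr (h x)
  rw [h4] at h5
  exact absurd h5 (not_le.mpr Cardinal.aleph0_lt_aleph_one)

/-- `s` is a limit point of `A` (from below). -/
def IsLim {M : Type} [LinearOrder M] (A : Set M) (s : M) : Prop :=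
  (∃ a ∈ A, a < s) ∧ ∀ u < s, ∃ a ∈ A, u < a ∧ a < s

section
variable {M : Type} [LinearOrder M] [WellFoundedLT M]

theorem isLim_card (A : Set M) : #{s | IsLim A s} ≤ #A + 1 := by
  classical
  rw [← Cardinal.mk_option]
  have hex : ∀ s : M, (∃ a : A, s < (a : M)) → ∃ a : A, s < (a : M) ∧
      ∀ b : A, s < (b : M) → (a : M) ≤ b := by
    intro s hs
    obtain ⟨a, ha, hmin⟩ := WellFounded.has_min (wellFounded_lt (α := A)) {a : A | s < (a : M)} hs
    exact ⟨a, ha, fun b hb => not_lt.mp (fun h => hmin b hb h)⟩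
  let f : {s | IsLim A s} → Option A := fun s =>
    if h : ∃ a : A, (s : M) < (a : M) then some (Classical.choose (hex s h)) else none
  have key : ∀ s t : {s | IsLim A s}, (s : M) < t → f s ≠ f t := by
    intro s t hst heq
    obtain ⟨a, haA, h1, h2⟩ := t.2.2 s hst
    have hs : ∃ a : A, (s : M) < (a : M) := ⟨⟨a, haA⟩, h1⟩
    have hfs : f s = some (Classical.choose (hex s hs)) := dif_pos hs
    by_cases ht : ∃ a : A, (t : M) < (a : M)
    · have hft : f t = some (Classical.choose (hex t ht)) := dif_pos ht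
      rw [hfs, hft, Option.some.injEq] at heq
      have h3 := (Classical.choose_spec (hex s hs)).2 ⟨a, haA⟩ h1
      have h4 := (Classical.choose_spec (hex t ht)).1
      rw [← heq] at h4
      exact absurd (h4.trans_le h3) (not_lt.mpr h2.le)
    · have hft : f t = none := dif_neg ht
      rw [hfs, hft] at heq
      exact absurd heq (by simp)
  refine Cardinal.mk_le_of_injective (f := f) ?_
  intro s t hst
  by_contra hne
  have hne' : (s : M) ≠ t := fun h => hne (Subtype.ext h)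
  rcases lt_or_gt_of_ne hne' with h | h
  · exact key s t h hst
  · exact key t s h hst.symm

/-- closure points of `V` -/
def Clo (V : M → M) : Set M := {ε | ∀ x < ε, V x < ε}

omit [WellFoundedLT M] in
theorem mk_Iic_le {θ : Cardinal.{0}} (hM : Reg M θ) (hθ : ℵ₀ ≤ θ) (u : M) :
    #(Set.Iic u) ≤ θ := by
  rw [← Set.Iio_insert]
  refine (Cardinal.mk_insert_le).trans ?_
  calc #(Set.Iio u) + 1 ≤ θ + θ := add_le_add (hM.small u) (Cardinal.one_le_aleph0.trans hθ)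
    _ = θ := Cardinal.add_eq_self hθ

theorem clo_unbounded {θ : Cardinal.{0}} (hM : Reg M θ) (hθ : ℵ₀ ≤ θ) (V : M → M) (m₀ : M) :
    ∃ ε ∈ Clo V, m₀ < ε := by
  have hnxt : ∀ u : M, ∃ w, u < w ∧ ∀ x ≤ u, V x < w := by
    intro u
    obtain ⟨w, hw⟩ := hM.bdd (insert u (V '' Set.Iic u)) (by
      refine (Cardinal.mk_insert_le).trans ?_
      calc #(V '' Set.Iic u) + 1 ≤ θ + θ :=
            add_le_add (Cardinal.mk_image_le.trans (mk_Iic_le hM hθ u))
              (Cardinal.one_le_aleph0.trans hθ)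
        _ = θ := Cardinal.add_eq_self hθ)
    exact ⟨w, hw u (Set.mem_insert _ _), fun x hx =>
      hw _ (Set.mem_insert_of_mem _ (Set.mem_image_of_mem _ hx))⟩
  choose nxt hn1 hn2 using hnxt
  let u : ℕ → M := fun n => nxt^[n] m₀
  have hu : ∀ n, u (n+1) = nxt (u n) := fun n => Function.iterate_succ_apply' nxt n m₀
  obtain ⟨b, hb⟩ := hM.bdd (Set.range u) ((Cardinal.mk_range_le.trans (by simp)).trans hθ)
  obtain ⟨ε, hε, hmin⟩ := WellFounded.has_min (wellFounded_lt (α := M))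
    {b | ∀ n, u n < b} ⟨b, fun n => hb _ ⟨n, rfl⟩⟩
  refine ⟨ε, ?_, hε 0⟩
  intro x hx
  have : ¬ ∀ n, u n < x := fun h => hmin x h hx
  push Not at this
  obtain ⟨n, hn⟩ := this
  calc V x < nxt (u n) := hn2 _ _ hn
    _ = u (n+1) := (hu n).symm
    _ < ε := hε _

/-- (L1) -/
theorem exists_closure_point {θ : Cardinal.{0}} (hM : Reg M θ) (hθ : ℵ₁ ≤ θ) (V : M → M)
    (m₀ : M) :
    ∃ m, m₀ < m ∧ (∀ u < m, ∃ ε ∈ Clo V, u < ε ∧ ε < m) ∧
      (∀ Q : Set M, Q.Countable → (∀ q ∈ Q, q < m) → ∃ u < m, ∀ q ∈ Q, q < u) ∧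
      (∃ S : Set M, #S ≤ ℵ₁ ∧ (∀ s ∈ S, s < m) ∧ ∀ u < m, ∃ s ∈ S, u < s) := by
  have hθ0 : ℵ₀ ≤ θ := Cardinal.aleph0_lt_aleph_one.le.trans hθ
  have hex : ∃ m, ¬ (Clo V ∩ Set.Ioo m₀ m).Countable := by
    have h1 : ℵ₁ ≤ #(Clo V ∩ Set.Ioi m₀ : Set M) := by
      by_contra hcon
      push Not at hcon
      obtain ⟨m, hm⟩ := hM.bdd _ (hcon.le.trans hθ)
      obtain ⟨ε, hε, h2⟩ := clo_unbounded hM hθ0 V (max m m₀)
      have h3 := hm ε ⟨hε, (le_max_right _ _).trans_lt h2⟩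
      exact absurd h3 (not_lt.mpr ((le_max_left _ _).trans h2.le))
    obtain ⟨B, hB, hBc⟩ := Cardinal.le_mk_iff_exists_subset.mp h1
    obtain ⟨m, hm⟩ := hM.bdd B (hBc.le.trans hθ)
    refine ⟨m, fun hc => ?_⟩
    have h4 : B.Countable := by
      refine hc.mono ?_
      intro b hb
      exact ⟨(hB hb).1, (hB hb).2, hm b hb⟩
    have h5 := Cardinal.mk_le_aleph0_iff.mpr h4
    rw [hBc] at h5
    exact absurd h5 (not_le.mpr Cardinal.aleph0_lt_aleph_one)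
  obtain ⟨m, hm, hmin⟩ := WellFounded.has_min (wellFounded_lt (α := M))
    {m | ¬ (Clo V ∩ Set.Ioo m₀ m).Countable} hex
  have hmin' : ∀ u < m, (Clo V ∩ Set.Ioo m₀ u).Countable := by
    intro u hu
    by_contra h
    exact hmin u h hu
  have hm' : ¬ (Clo V ∩ Set.Ioo m₀ m).Countable := hm
  have hm0 : m₀ < m := by
    by_contra h
    push Not at h
    apply hm'
    have : Clo V ∩ Set.Ioo m₀ m = ∅ := by
      rw [Set.Ioo_eq_empty (not_lt.mpr h), Set.inter_empty]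
    rw [this]; exact Set.countable_empty
  have ha : ∀ u < m, ∃ ε ∈ Clo V, (u < ε ∧ m₀ < ε) ∧ ε < m := by
    intro u hu
    by_contra hcon
    push Not at hcon
    apply hm'
    refine ((hmin' (max u m₀) (max_lt hu hm0)).union (Set.countable_singleton (max u m₀))).mono ?_
    rintro ε ⟨hε, h1, h2⟩
    by_cases h3 : ε < max u m₀
    · exact Or.inl ⟨hε, h1, h3⟩
    · right
      by_contra h4
      have h5 : max u m₀ < ε := lt_of_le_of_ne (not_lt.mp h3) (fun h => h4 h.symm)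
      have := hcon ε hε ⟨(le_max_left _ _).trans_lt h5, (le_max_right _ _).trans_lt h5⟩
      exact absurd h2 (not_lt.mpr this)
  refine ⟨m, hm0, ?_, ?_, ?_⟩
  · intro u hu
    obtain ⟨ε, h1, h2, h3⟩ := ha u hu
    exact ⟨ε, h1, h2.1, h3⟩
  · intro Q hQ hQm
    have h1 : ∃ u < m, ∀ q ∈ Q, q ≤ u := by
      by_contra hcon
      push Not at hcon
      apply hm'
      have : (⋃ q ∈ Q, Clo V ∩ Set.Ioo m₀ q).Countable :=
        hQ.biUnion (fun q hq => hmin' q (hQm q hq))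
      refine this.mono ?_
      rintro ε ⟨hε, h1, h2⟩
      obtain ⟨q, hq, h3⟩ := hcon ε h2
      exact Set.mem_biUnion hq ⟨hε, h1, h3⟩
    obtain ⟨u, hu, hq⟩ := h1
    obtain ⟨ε, _, h2, h3⟩ := ha u hu
    exact ⟨ε, h3, fun q hqQ => (hq q hqQ).trans_lt h2.1⟩
  · refine ⟨Clo V ∩ Set.Ioo m₀ m, ?_, fun s hs => hs.2.2, ?_⟩
    · refine mk_le_aleph_one (S := (Clo V ∩ Set.Ioo m₀ m : Set M)) ?_
      intro s
      have h1 := hmin' (s : M) s.2.2.2
      have h2 : ((fun x : (Clo V ∩ Set.Ioo m₀ m : Set M) => (x : M)) '' Set.Iio s).Countable := by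
        refine h1.mono ?_
        rintro _ ⟨x, hx, rfl⟩
        exact ⟨x.2.1, x.2.2.1, hx⟩
      exact (Set.countable_of_injective_of_countable_image Subtype.val_injective.injOn h2)
    · intro u hu
      obtain ⟨ε, h1, h2, h3⟩ := ha u hu
      exact ⟨ε, ⟨h1, h2.2, h3⟩, h2.1⟩

/-- (L2) -/
theorem exists_club (τ : M) (hτ : #(Set.Iio τ) ≤ ℵ₁)
    (hb : ∀ Q : Set M, Q.Countable → (∀ q ∈ Q, q < τ) → ∃ u < τ, ∀ q ∈ Q, q < u) :
    ∃ c : Set M, (∀ x ∈ c, x < τ) ∧ (∀ ξ < τ, ∃ x ∈ c, ξ ≤ x) ∧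
      (∀ s < τ, IsLim c s → s ∈ c) ∧ (∀ ξ < τ, (c ∩ Set.Iio ξ).Countable) := by
  obtain ⟨W, _, _, hW, hWc⟩ := exists_reg ℵ₀ le_rfl
  rw [Cardinal.succ_aleph0] at hWc
  obtain ⟨u0, hu0, -⟩ := hb ∅ Set.countable_empty (by simp)
  have hsurj : ∃ φ : W → Set.Iio τ, Function.Surjective φ := by
    rw [← hWc] at hτ
    obtain ⟨f⟩ := (Cardinal.le_def _ _).mp hτ
    have : Nonempty (Set.Iio τ) := ⟨⟨u0, hu0⟩⟩
    exact ⟨Function.invFun f, Function.invFun_surjective f.injective⟩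
  obtain ⟨φ, hφ⟩ := hsurj
  have hWcount : ∀ ξ : W, (Set.Iio ξ).Countable := fun ξ =>
    Cardinal.mk_le_aleph0_iff.mp (hW.small ξ)
  have hF : ∀ ξ : W, ∃ v : M, v < τ ∧ (∀ η < ξ, (φ η : M) < v) ∧
      ∀ w, (∀ η < ξ, (φ η : M) < w) → v ≤ w := by
    intro ξ
    obtain ⟨u, hu, hq⟩ := hb ((fun η => (φ η : M)) '' Set.Iio ξ) ((hWcount ξ).image _)
      (by rintro _ ⟨η, _, rfl⟩; exact (φ η).2)
    obtain ⟨v, hv, hmin⟩ := WellFounded.has_min (wellFounded_lt (α := M))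
      {v | ∀ η < ξ, (φ η : M) < v} ⟨u, fun η hη => hq _ ⟨η, hη, rfl⟩⟩
    have hmin' : ∀ w, (∀ η < ξ, (φ η : M) < w) → v ≤ w := fun w hw =>
      not_lt.mp (fun h => hmin w hw h)
    exact ⟨v, (hmin' u (fun η hη => hq _ ⟨η, hη, rfl⟩)).trans_lt hu, hv, hmin'⟩
  choose F hF1 hF2 hF3 using hF
  have hmono : ∀ η ξ : W, η ≤ ξ → F η ≤ F ξ := fun η ξ h =>
    hF3 η _ (fun ζ hζ => hF2 ξ ζ (hζ.trans_le h))
  have hcof : ∀ ξ < τ, ∃ η, ξ < F η := by
    intro ξ hξ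
    obtain ⟨η, hη⟩ := hφ ⟨ξ, hξ⟩
    obtain ⟨η', hη'⟩ := hW.bdd {η} (by simp)
    have h1 := hF2 η' η (hη' η rfl)
    rw [hη] at h1
    exact ⟨η', h1⟩
  refine ⟨Set.range F, ?_, ?_, ?_, ?_⟩
  · rintro _ ⟨ξ, rfl⟩
    exact hF1 ξ
  · intro ξ hξ
    obtain ⟨η, hη⟩ := hcof ξ hξ
    exact ⟨F η, ⟨η, rfl⟩, hη.le⟩
  · intro s hs hlim
    obtain ⟨η, hη⟩ := hcof s hs
    obtain ⟨ξ, hξ, hmin⟩ := WellFounded.has_min (wellFounded_lt (α := W))
      {ξ | s ≤ F ξ} ⟨η, hη.le⟩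
    refine ⟨ξ, le_antisymm ?_ hξ⟩
    apply hF3
    intro ζ hζ
    have h1 : F ζ < s := not_le.mp (fun h => hmin ζ h hζ)
    obtain ⟨_, ⟨ζ', rfl⟩, h2, h3⟩ := hlim.2 (F ζ) h1
    have h4 : ζ < ζ' := by
      by_contra h
      exact absurd (hmono ζ' ζ (not_lt.mp h)) (not_le.mpr h2)
    exact (hF2 ζ' ζ h4).trans h3
  · intro ξ hξ
    obtain ⟨η, hη⟩ := hcof ξ hξ
    refine ((hWcount η).image F).mono ?_
    rintro _ ⟨⟨ζ, rfl⟩, hζ⟩
    refine ⟨ζ, ?_, rfl⟩
    by_contra h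
    have h1 := hmono η ζ (not_lt.mp h)
    exact absurd (hζ.trans hη) (not_lt.mpr h1)

end

end Pool.Agent.Lib.MP_64b69f
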